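import Mathlib

/-!
# TANK G, bridge B -> C: the order of the Jacobian at a tame divisor

`V` is a discrete valuation ring of `K` with uniformizer `t`, stable under the derivations `D i` of
`K / k`, 'smooth' in the sense that `det (D i (w j))` is a unit for some `w j ∈ V`.  If `P(u) = ε t ^ e`
with `e` prime to `p`, `∂P / ∂X_l₀ (u)` a unit and the residue field of `V` is separable over the
field generated by the residues of the `u l`, then `det (D i (u l)) = (unit) t ^ (e - 1)`.
-/

set_option autoImplicit false

namespace Pool.Agent.TGBC50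

open Matrix

section Chain

variable {k K : Type*} [Field k] [Field K] [Algebra k K] {σ : Type*} [Fintype σ]

/-- The chain rule. -/
theorem der_aeval (D : Derivation k K K) (u : σ → K) (P : MvPolynomial σ k) :
    D (MvPolynomial.aeval u P) = ∑ l, MvPolynomial.aeval u (MvPolynomial.pderiv l P) * D (u l) := by
  classical
  induction P using MvPolynomial.induction_on with
  | C a =>
    simp [MvPolynomial.algHom_C]
  | add P Q hP hQ =>
    simp only [map_add, hP, hQ, add_mul, Finset.sum_add_distrib]
  | mul_X P i hP =>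
    rw [map_mul, MvPolynomial.aeval_X, Derivation.leibniz, hP, smul_eq_mul, smul_eq_mul]
    simp only [Derivation.leibniz, MvPolynomial.pderiv_X, smul_eq_mul, map_add, map_mul,
      MvPolynomial.aeval_X, add_mul, Finset.sum_add_distrib]
    congr 1
    · rw [Finset.sum_eq_single i]
      · simp
      · intro b _ hb
        rw [Pi.single_eq_of_ne (Ne.symm hb)]
        simp
      · intro h
        exact absurd (Finset.mem_univ i) h
    · rw [Finset.mul_sum]
      exact Finset.sum_congr rfl fun l _ => by ring

omit [Fintype σ] in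
/-- The chain rule for polynomials with coefficients in `k[u]`. -/
theorem der_eval₂ (D : Derivation k K K) (u : σ → K) (a : K)
    (G : Polynomial (MvPolynomial σ k)) :
    D (G.eval₂ (MvPolynomial.aeval u : MvPolynomial σ k →ₐ[k] K).toRingHom a) =
      (G.sum fun i c => D (MvPolynomial.aeval u c) * a ^ i) +
      (Polynomial.derivative G).eval₂ (MvPolynomial.aeval u : MvPolynomial σ k →ₐ[k] K).toRingHom a
        * D a := by
  induction G using Polynomial.induction_on' with
  | add p q hp hq =>
    rw [Polynomial.eval₂_add, map_add, hp, hq, Polynomial.derivative_add, Polynomial.eval₂_add,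
      Polynomial.sum_add_index p q _ (fun i => by simp) (fun i c d => by rw [map_add, map_add]; ring)]
    ring
  | monomial i c =>
    rw [Polynomial.eval₂_monomial, Polynomial.sum_monomial_index _ _ (by simp),
      Polynomial.derivative_monomial, Polynomial.eval₂_monomial, Derivation.leibniz,
      Derivation.leibniz_pow]
    simp only [smul_eq_mul, AlgHom.toRingHom_eq_coe, RingHom.coe_coe, map_mul, map_natCast,
      nsmul_eq_mul]
    ring

end Chain

section Unit

variable {k K : Type*} [Field k] [Field K] [Algebra k K] (V : ValuationSubring K) {n : ℕ}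

/-- `x` has positive value (or is zero). -/
def Vp (x : K) : Prop := V.valuation x < 1

variable {V}

theorem Vp.mem {x : K} (h : Vp V x) : x ∈ V := (V.valuation_le_one_iff x).1 h.le

theorem Vp.add {x y : K} (hx : Vp V x) (hy : Vp V y) : Vp V (x + y) :=
  V.valuation.map_add_lt hx hy

theorem Vp.neg {x : K} (hx : Vp V x) : Vp V (-x) := by
  unfold Vp
  rw [Valuation.map_neg]
  exact hx

theorem Vp.mul {x y : K} (hx : Vp V x) (hy : y ∈ V) : Vp V (x * y) := by
  unfold Vp
  rw [map_mul]
  exact (mul_le_of_le_one_right' ((V.valuation_le_one_iff y).2 hy)).trans_lt hx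

theorem Vp.mul' {x y : K} (hx : x ∈ V) (hy : Vp V y) : Vp V (x * y) := by
  rw [mul_comm]
  exact hy.mul hx

theorem Vp.zero : Vp V (0 : K) := by
  unfold Vp
  rw [map_zero]
  exact zero_lt_one

theorem Vp.sum {ι : Type*} (s : Finset ι) (f : ι → K) (h : ∀ i ∈ s, Vp V (f i)) :
    Vp V (∑ i ∈ s, f i) := by
  classical
  induction s using Finset.induction_on with
  | empty => exact Vp.zero
  | insert i s hi ih =>
    rw [Finset.sum_insert hi]
    exact (h i (Finset.mem_insert_self i s)).add
      (ih fun j hj => h j (Finset.mem_insert_of_mem hj))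

theorem Vp.of_mul {x y : K} (hx : V.valuation x = 1) (h : Vp V (x * y)) : Vp V y := by
  unfold Vp at h ⊢
  rwa [map_mul, hx, one_mul] at h

theorem Vp.ne_one {x : K} (h : Vp V x) : V.valuation x ≠ 1 := ne_of_lt h

theorem val_add_vp {x y : K} (hx : V.valuation x = 1) (hy : Vp V y) : V.valuation (x + y) = 1 := by
  rw [Valuation.map_add_eq_of_lt_left _ (by rw [hx]; exact hy), hx]

theorem det_mem (M : Matrix (Fin n) (Fin n) K) (h : ∀ i j, M i j ∈ V) : M.det ∈ V := by
  rw [Matrix.det_apply]
  refine sum_mem fun σ _ => ?_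
  rw [Units.smul_def, zsmul_eq_mul]
  exact mul_mem (by
    exact intCast_mem V _) (prod_mem fun i _ => h _ _)

/-- The determinant of the derivatives is a unit. -/
theorem det_unit (D : Fin n → Derivation k K K) (hD : ∀ i, ∀ a ∈ V, D i a ∈ V) (w : Fin n → K)
    (hw : ∀ j, w j ∈ V) (hdet : V.valuation (Matrix.of fun j i => D i (w j)).det = 1)
    (x : Fin n → K) (hx : ∀ j, x j ∈ V)
    (hprop : ∀ c : Fin n → K, (∀ i, c i ∈ V) → (∀ j, Vp V (∑ i, c i * D i (x j))) →
      ∀ a ∈ V, Vp V (∑ i, c i * D i a)) :
    V.valuation (Matrix.of fun j i => D i (x j)).det = 1 := by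
  classical
  let φ := IsLocalRing.residue V
  -- matrices over `V`
  let Mx : Matrix (Fin n) (Fin n) V := Matrix.of fun j i => ⟨D i (x j), hD i _ (hx j)⟩
  let Mw : Matrix (Fin n) (Fin n) V := Matrix.of fun j i => ⟨D i (w j), hD i _ (hw j)⟩
  have hcx : ((Mx.det : V) : K) = (Matrix.of fun j i => D i (x j)).det := by
    have h1 := (V.subtype).map_det Mx
    rw [show ((Mx.det : V) : K) = V.subtype Mx.det from rfl, h1]
    rfl
  have hcw : ((Mw.det : V) : K) = (Matrix.of fun j i => D i (w j)).det := by
    have h1 := (V.subtype).map_det Mw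
    rw [show ((Mw.det : V) : K) = V.subtype Mw.det from rfl, h1]
    rfl
  have hφ : ∀ a : V, φ a = 0 ↔ Vp V (a : K) := by
    intro a
    rw [IsLocalRing.residue_eq_zero_iff]
    exact V.valuation_lt_one_iff a
  rw [← hcx]
  rw [← hcw] at hdet
  have hle : V.valuation ((Mx.det : V) : K) ≤ 1 := (V.valuation_le_one_iff _).2 (Mx.det).2
  by_contra hne
  have hlt : Vp V ((Mx.det : V) : K) := lt_of_le_of_ne hle hne
  have h0 : (φ.mapMatrix Mx).det = 0 := by
    rw [← RingHom.map_det]
    exact (hφ _).2 hlt
  obtain ⟨c, hc0, hc⟩ := Matrix.exists_mulVec_eq_zero_iff.2 h0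
  choose d hd using fun i => Ideal.Quotient.mk_surjective (c i)
  have hd' : ∀ i, φ (d i) = c i := hd
  have hsum : ∀ (M : Matrix (Fin n) (Fin n) V) (j : Fin n),
      φ (∑ i, d i * M j i) = (φ.mapMatrix M *ᵥ c) j := by
    intro M j
    rw [map_sum]
    refine Finset.sum_congr rfl fun i _ => ?_
    rw [map_mul, hd', mul_comm]
    rfl
  have hcoe : ∀ (M : Matrix (Fin n) (Fin n) V) (j : Fin n),
      ((∑ i, d i * M j i : V) : K) = ∑ i, (d i : K) * (M j i : K) := by
    intro M j
    rw [AddSubmonoidClass.coe_finsetSum]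
    rfl
  have hmem : ∀ a ∈ V, Vp V (∑ i, (d i : K) * D i a) := by
    refine hprop (fun i => (d i : K)) (fun i => (d i).2) fun j => ?_
    have h1 : φ (∑ i, d i * Mx j i) = 0 := by
      rw [hsum, hc]
      rfl
    rw [hφ, hcoe] at h1
    exact h1
  have hw0 : φ.mapMatrix Mw *ᵥ c = 0 := by
    funext j
    rw [← hsum, Pi.zero_apply, hφ, hcoe]
    exact hmem (w j) (hw j)
  have h1 : (φ.mapMatrix Mw).det ≠ 0 := by
    rw [← RingHom.map_det]
    intro h2
    exact ((hφ _).1 h2).ne_one hdet
  exact hc0 (Matrix.eq_zero_of_mulVec_eq_zero h1 hw0)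

end Unit

section Tame

variable {k K : Type*} [Field k] [Field K] [Algebra k K] {V : ValuationSubring K} {n : ℕ}

/-- **The tame formula.** -/
theorem tame_det (hk : ∀ c : k, algebraMap k K c ∈ V) {t : K} (ht0 : t ≠ 0) (ht : Vp V t)
    (htd : ∀ a, Vp V a → a / t ∈ V) (D : Fin n → Derivation k K K)
    (hD : ∀ i, ∀ a ∈ V, D i a ∈ V) (w : Fin n → K) (hw : ∀ j, w j ∈ V)
    (hdet : V.valuation (Matrix.of fun j i => D i (w j)).det = 1)
    (u : Fin n → K) (hu : ∀ l, u l ∈ V) (P : MvPolynomial (Fin n) k) (l₀ : Fin n)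
    (hP : V.valuation (MvPolynomial.aeval u (MvPolynomial.pderiv l₀ P)) = 1)
    {e : ℕ} (he : 0 < e) (hek : (e : k) ≠ 0) {ε : K} (hε : V.valuation ε = 1)
    (hPe : MvPolynomial.aeval u P = ε * t ^ e)
    (hsep : ∀ a ∈ V, ∃ G : Polynomial (MvPolynomial (Fin n) k),
      Vp V (G.eval₂ (MvPolynomial.aeval u : MvPolynomial (Fin n) k →ₐ[k] K).toRingHom a) ∧
      V.valuation ((Polynomial.derivative G).eval₂
        (MvPolynomial.aeval u : MvPolynomial (Fin n) k →ₐ[k] K).toRingHom a) = 1) :
    V.valuation (Matrix.of fun l i => D i (u l)).det = V.valuation t ^ (e - 1) := by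
  classical
  have htV : t ∈ V := ht.mem
  have hεV : ε ∈ V := (V.valuation_le_one_iff _).1 hε.le
  have hauV : ∀ Q : MvPolynomial (Fin n) k, MvPolynomial.aeval u Q ∈ V := by
    intro Q
    induction Q using MvPolynomial.induction_on with
    | C a => rw [MvPolynomial.algHom_C]; exact hk a
    | add P Q hP hQ => rw [map_add]; exact add_mem hP hQ
    | mul_X P i hP => rw [map_mul, MvPolynomial.aeval_X]; exact mul_mem hP (hu i)
  have hvk : ∀ c : k, c ≠ 0 → V.valuation (algebraMap k K c) = 1 := by
    intro c hc
    have h1 : V.valuation (algebraMap k K c) ≤ 1 := (V.valuation_le_one_iff _).2 (hk c)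
    have h2 : V.valuation (algebraMap k K c⁻¹) ≤ 1 := (V.valuation_le_one_iff _).2 (hk c⁻¹)
    refine le_antisymm h1 ?_
    by_contra h3
    push Not at h3
    have h4 : V.valuation (algebraMap k K c * algebraMap k K c⁻¹) < 1 := by
      rw [map_mul]
      exact (mul_le_of_le_one_right' h2).trans_lt h3
    rw [← map_mul, mul_inv_cancel₀ hc, map_one, map_one] at h4
    exact lt_irrefl _ h4
  -- the matrix with `t` in the row `l₀`
  let x : Fin n → K := fun l => if l = l₀ then t else u l
  have hx : ∀ l, x l ∈ V := by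
    intro l
    by_cases h : l = l₀
    · simp only [x, if_pos h]; exact htV
    · simp only [x, if_neg h]; exact hu l
  have hunit : V.valuation (Matrix.of fun l i => D i (x l)).det = 1 := by
    refine det_unit D hD w hw hdet x hx fun c hc hcx => ?_
    let D' : Derivation k K K := ∑ i, c i • D i
    have hD' : ∀ a, D' a = ∑ i, c i * D i a := by
      intro a
      have h1 := congrFun (map_sum (Derivation.coeFnAddMonoidHom (R := k) (A := K) (M := K))
        (fun i => c i • D i) Finset.univ) a
      rw [Finset.sum_apply] at h1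
      exact h1
    have hD'V : ∀ a ∈ V, D' a ∈ V := fun a ha => by
      rw [hD']
      exact sum_mem fun i _ => mul_mem (hc i) (hD i a ha)
    have h1 : Vp V (D' t) := by
      have h2 := hcx l₀
      simp only [x, if_pos rfl] at h2
      rw [hD']
      exact h2
    have h2 : ∀ l, l ≠ l₀ → Vp V (D' (u l)) := by
      intro l hl
      have h3 := hcx l
      simp only [x, if_neg hl] at h3
      rw [hD']
      exact h3
    -- `D'` preserves the maximal ideal
    have h3 : ∀ a, Vp V a → Vp V (D' a) := by
      intro a ha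
      have h4 : a = (a / t) * t := (div_mul_cancel₀ a ht0).symm
      rw [h4, Derivation.leibniz, smul_eq_mul, smul_eq_mul]
      exact (Vp.mul' (htd a ha) h1).add (ht.mul (hD'V _ (htd a ha)))
    have h4 : Vp V (D' (u l₀)) := by
      have h5 : Vp V (D' (MvPolynomial.aeval u P)) := by
        apply h3
        rw [hPe]
        refine Vp.mul' hεV ?_
        rw [← Nat.sub_add_cancel he, pow_succ]
        exact Vp.mul' (pow_mem htV _) ht
      rw [der_aeval, ← Finset.add_sum_erase _ _ (Finset.mem_univ l₀)] at h5
      have h6 : Vp V (∑ l ∈ Finset.univ.erase l₀,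
          MvPolynomial.aeval u (MvPolynomial.pderiv l P) * D' (u l)) :=
        Vp.sum _ _ fun l hl => Vp.mul' (hauV _) (h2 l (Finset.ne_of_mem_erase hl))
      have h7 := h5.add h6.neg
      rw [add_neg_cancel_right] at h7
      exact Vp.of_mul hP h7
    have h5 : ∀ l, Vp V (D' (u l)) := by
      intro l
      by_cases h : l = l₀
      · rw [h]; exact h4
      · exact h2 l h
    have h6 : ∀ Q : MvPolynomial (Fin n) k, Vp V (D' (MvPolynomial.aeval u Q)) := by
      intro Q
      rw [der_aeval]
      exact Vp.sum _ _ fun l _ => Vp.mul' (hauV _) (h5 l)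
    intro a ha
    rw [← hD']
    obtain ⟨G, hG, hG'⟩ := hsep a ha
    have h7 := h3 _ hG
    rw [der_eval₂] at h7
    have h8 : Vp V (G.sum fun i c => D' (MvPolynomial.aeval u c) * a ^ i) := by
      rw [Polynomial.sum_def]
      exact Vp.sum _ _ fun i _ => (h6 _).mul (pow_mem ha _)
    have h9 := h7.add h8.neg
    rw [add_comm, neg_add_cancel_left] at h9
    exact Vp.of_mul hG' h9
  -- the determinant
  let M : Matrix (Fin n) (Fin n) K := Matrix.of fun l i => D i (u l)
  have e1 : (M.updateRow l₀ fun i => D i (MvPolynomial.aeval u P)).det =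
      MvPolynomial.aeval u (MvPolynomial.pderiv l₀ P) * M.det := by
    have h1 : (fun i => D i (MvPolynomial.aeval u P)) =
        ∑ l, MvPolynomial.aeval u (MvPolynomial.pderiv l P) • M l := by
      funext i
      rw [der_aeval, Finset.sum_apply]
      rfl
    rw [h1, Matrix.det_updateRow_sum, smul_eq_mul]
  have e2 : (fun i => D i (MvPolynomial.aeval u P)) =
      t ^ (e - 1) • (((e : K) * ε) • (fun i => D i t) + t • fun i => D i ε) := by
    funext i
    rw [hPe, Derivation.leibniz, Derivation.leibniz_pow]
    simp only [smul_eq_mul, nsmul_eq_mul, Pi.smul_apply, Pi.add_apply]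
    have h1 : t ^ e = t ^ (e - 1) * t := by
      rw [← pow_succ, Nat.sub_add_cancel he]
    rw [h1]
    ring
  have e3 : (M.updateRow l₀ fun i => D i (MvPolynomial.aeval u P)).det = t ^ (e - 1) *
      ((e : K) * ε * (M.updateRow l₀ fun i => D i t).det +
        t * (M.updateRow l₀ fun i => D i ε).det) := by
    rw [e2, Matrix.det_updateRow_smul, Matrix.det_updateRow_add, Matrix.det_updateRow_smul,
      Matrix.det_updateRow_smul]
  have e4 : (M.updateRow l₀ fun i => D i t) = Matrix.of fun l i => D i (x l) := by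
    ext l i
    by_cases h : l = l₀
    · subst h
      simp [x]
    · rw [Matrix.updateRow_ne h]
      simp [x, h, M]
  have h1 : V.valuation ((e : K) * ε * (M.updateRow l₀ fun i => D i t).det) = 1 := by
    rw [map_mul, map_mul, e4, hunit, hε, mul_one, mul_one]
    have h2 := hvk e hek
    rwa [map_natCast] at h2
  have h2 : Vp V (t * (M.updateRow l₀ fun i => D i ε).det) := by
    refine ht.mul (det_mem _ fun l i => ?_)
    by_cases h : l = l₀
    · subst h
      rw [Matrix.updateRow_self]
      exact hD i _ hεV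
    · rw [Matrix.updateRow_ne h]
      exact hD i _ (hu l)
  have h3 := congrArg V.valuation (e1.symm.trans e3)
  rw [map_mul, hP, one_mul, map_mul, val_add_vp h1 h2, mul_one, map_pow] at h3
  exact h3

end Tame

end Pool.Agent.TGBC50
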