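import Pool.Agent.Lib.TG_h51.Div
import Pool.Agent.Lib.TGBC_h50.TameDet

/-!
# TANK G, bridge B -> C, divisors: the centre on `k[u]` is principal, generated by a polynomial with
a partial derivative which is a unit at the divisor
-/

set_option autoImplicit false

namespace Pool.Agent.TGBC50

open MvPolynomial
open Pool.Agent.TG51 (IndV IndMod)

section Poly

variable {k σ : Type*} [Field k] {p : ℕ} [hp : Fact p.Prime] [CharP k p]

/-- A polynomial all whose partial derivatives vanish is a `p`-th power. -/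
theorem exists_pth_root (hperf : ∀ c : k, ∃ d, d ^ p = c) (P : MvPolynomial σ k)
    (h : ∀ l, pderiv l P = 0) : ∃ Q : MvPolynomial σ k, P = Q ^ p := by
  classical
  choose r hr using hperf
  have hdvd : ∀ m ∈ P.support, ∀ l, p ∣ m l := by
    intro m hm l
    rcases Nat.eq_zero_or_pos (m l) with h0 | h0
    · rw [h0]; exact dvd_zero p
    · have h1 : m = (m - Finsupp.single l 1) + Finsupp.single l 1 := by
        rw [tsub_add_cancel_of_le]
        rw [Finsupp.single_le_iff]
        exact h0
      have h2 := coeff_pderiv (i := l) P (m - Finsupp.single l 1)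
      rw [h l, coeff_zero, ← h1, Finsupp.coe_tsub, Pi.sub_apply, Finsupp.single_eq_same] at h2
      have h3 : ((m l - 1 : ℕ) : k) + 1 = (m l : k) := by
        rw [← Nat.cast_add_one, Nat.sub_add_cancel h0]
      rw [h3] at h2
      rcases mul_eq_zero.1 h2.symm with h4 | h4
      · exact absurd h4 (mem_support_iff.1 hm)
      · exact (CharP.cast_eq_zero_iff k p _).1 h4
  have hCP : CharP (MvPolynomial σ k) p := inferInstance
  refine ⟨∑ m ∈ P.support, monomial (m.mapRange (· / p) (Nat.zero_div p)) (r (coeff m P)), ?_⟩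
  rw [sum_pow_char p]
  conv_lhs => rw [P.as_sum]
  refine Finset.sum_congr rfl fun m hm => ?_
  have h1 : p • m.mapRange (· / p) (Nat.zero_div p) = m := by
    ext l
    rw [Finsupp.smul_apply, Finsupp.mapRange_apply, smul_eq_mul, Nat.mul_div_cancel' (hdvd m hm l)]
  rw [monomial_pow, hr, h1]

omit hp in
theorem totalDegree_pderiv_lt (P : MvPolynomial σ k) (l : σ) (h : pderiv l P ≠ 0) :
    (pderiv l P).totalDegree < P.totalDegree := by
  classical
  obtain ⟨m, hm, hmd⟩ : ∃ m ∈ (pderiv l P).support,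
      (pderiv l P).totalDegree = m.sum fun _ e => e := by
    rw [totalDegree]
    obtain ⟨m, hm, hmd⟩ := Finset.exists_mem_eq_sup _ (support_nonempty.2 h)
      (fun m => m.sum fun _ e => e)
    exact ⟨m, hm, hmd⟩
  rw [hmd]
  have h1 : coeff (m + Finsupp.single l 1) P ≠ 0 := by
    intro h0
    apply mem_support_iff.1 hm
    rw [coeff_pderiv, h0, zero_mul]
  have h2 := le_totalDegree (mem_support_iff.2 h1)
  refine lt_of_lt_of_le ?_ h2
  rw [Finsupp.sum_add_index' (fun _ => rfl) (fun _ _ _ => rfl), Finsupp.sum_single_index rfl]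
  exact Nat.lt_succ_self _

/-- An irreducible polynomial does not divide all its partial derivatives. -/
theorem exists_pderiv_not_dvd (hperf : ∀ c : k, ∃ d, d ^ p = c) {P : MvPolynomial σ k}
    (hP : Irreducible P) : ∃ l, ¬ P ∣ pderiv l P := by
  by_contra hcon
  push Not at hcon
  have h0 : ∀ l, pderiv l P = 0 := by
    intro l
    by_contra hne
    have h1 := totalDegree_pderiv_lt P l hne
    obtain ⟨R, hR⟩ := hcon l
    have hR0 : R ≠ 0 := fun h => hne (by rw [hR, h, mul_zero])
    rw [hR, totalDegree_mul_of_isDomain hP.ne_zero hR0] at h1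
    omega
  obtain ⟨Q, hQ⟩ := exists_pth_root hperf P h0
  rw [hQ] at hP
  exact not_irreducible_pow hp.out.one_lt.ne' hP

end Poly

section Prin

/-- A prime of height one of a polynomial ring is principal. -/
theorem height_one_principal {R : Type*} [CommRing R] [IsDomain R] [UniqueFactorizationMonoid R]
    {q : Ideal R} [hq : q.IsPrime] (h : q.height = 1) :
    ∃ P : R, Irreducible P ∧ ∀ Q, Q ∈ q ↔ P ∣ Q := by
  have hne : q ≠ ⊥ := Ideal.ne_bot_of_height_eq_one h
  obtain ⟨P, hPq, hP⟩ := hq.exists_mem_prime_of_ne_bot hne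
  have hPr : (Ideal.span {P}).IsPrime := (Ideal.span_singleton_prime hP.ne_zero).2 hP
  have hle : Ideal.span {P} ≤ q := (Ideal.span_singleton_le_iff_mem _).2 hPq
  have heq : Ideal.span {P} = q := by
    by_contra hne'
    have h1 := TG51.eq_bot_of_lt h (lt_of_le_of_ne hle hne')
    rw [Ideal.span_singleton_eq_bot] at h1
    exact hP.ne_zero h1
  refine ⟨P, hP.irreducible, fun Q => ?_⟩
  rw [← heq, Ideal.mem_span_singleton]

variable {k K : Type*} [Field k] [Field K] [Algebra k K] {V : ValuationSubring K} {n : ℕ}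

/-- The centre of `V` on `k[u]`, as an ideal of the polynomial ring. -/
theorem exists_centre (hk : ∀ c : k, algebraMap k K c ∈ V) {u : Fin n → K} (hu : ∀ l, u l ∈ V) :
    ∃ q : Ideal (MvPolynomial (Fin n) k), q.IsPrime ∧
      ∀ Q, Q ∈ q ↔ V.valuation (aeval u Q) < 1 := by
  have hmem : ∀ Q : MvPolynomial (Fin n) k, aeval u Q ∈ V := by
    intro Q
    induction Q using MvPolynomial.induction_on with
    | C a => rw [MvPolynomial.algHom_C]; exact hk a
    | add P Q hP hQ => rw [map_add]; exact add_mem hP hQ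
    | mul_X P i hP => rw [map_mul, MvPolynomial.aeval_X]; exact mul_mem hP (hu i)
  let φ : MvPolynomial (Fin n) k →+* V :=
    (aeval u : MvPolynomial (Fin n) k →ₐ[k] K).toRingHom.codRestrict V.toSubring hmem
  refine ⟨(IsLocalRing.maximalIdeal V).comap φ, Ideal.IsPrime.comap _, fun Q => ?_⟩
  rw [Ideal.mem_comap]
  exact V.valuation_lt_one_iff (φ Q)

/-- The centre on `k[u]` is not zero. -/
theorem exists_pos_of_algebraic {u : Fin n → K} (hV : V ≠ ⊤) (hk : ∀ c : k, algebraMap k K c ∈ V)
    (hu : ∀ l, u l ∈ V) (halg : Algebra.IsAlgebraic (Algebra.adjoin k (Set.range u)) K) :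
    ∃ Q : MvPolynomial (Fin n) k, Q ≠ 0 ∧ V.valuation (aeval u Q) < 1 := by
  obtain ⟨y, hy0, hy⟩ : ∃ y : K, y ≠ 0 ∧ V.valuation y < 1 := by
    obtain ⟨x, hx⟩ : ∃ x, x ∉ V := by
      by_contra h
      push Not at h
      exact hV (eq_top_iff.2 fun x _ => h x)
    have hx0 : x ≠ 0 := fun h => hx (h ▸ V.zero_mem)
    refine ⟨x⁻¹, inv_ne_zero hx0, ?_⟩
    rw [← V.valuation_le_one_iff, not_le] at hx
    rw [map_inv₀]
    exact inv_lt_one_of_one_lt₀ hx
  obtain ⟨P, hP0, hP⟩ := IsAlgebraic.exists_nonzero_coeff_and_aeval_eq_zero (halg.isAlgebraic y)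
    (mem_nonZeroDivisors_of_ne_zero hy0)
  have hmem : ∀ z : Algebra.adjoin k (Set.range u),
      ∃ f : MvPolynomial (Fin n) k, aeval u f = (z : K) := by
    intro z
    have hz := z.2
    have : ∀ y ∈ Algebra.adjoin k (Set.range u),
        ∃ f : MvPolynomial (Fin n) k, aeval u f = y := by
      intro y hy
      rw [Algebra.adjoin_range_eq_range_aeval] at hy
      exact hy
    exact this _ hz
  have hauV : ∀ Q : MvPolynomial (Fin n) k, aeval u Q ∈ V := by
    intro Q
    induction Q using MvPolynomial.induction_on with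
    | C a => rw [MvPolynomial.algHom_C]; exact hk a
    | add P Q hP hQ => rw [map_add]; exact add_mem hP hQ
    | mul_X P i hP => rw [map_mul, MvPolynomial.aeval_X]; exact mul_mem hP (hu i)
  have hV' : ∀ z : Algebra.adjoin k (Set.range u), (z : K) ∈ V := by
    intro z
    obtain ⟨f, hf⟩ := hmem z
    rw [← hf]
    exact hauV f
  rw [← Polynomial.divX_mul_X_add P, map_add, map_mul, Polynomial.aeval_X,
    Polynomial.aeval_C] at hP
  have hyV : y ∈ V := (V.valuation_le_one_iff _).1 hy.le
  have hdV : Polynomial.aeval y P.divX ∈ V := by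
    rw [Polynomial.aeval_eq_sum_range]
    refine V.toSubring.sum_mem fun i _ => ?_
    rw [Algebra.smul_def]
    exact V.mul_mem _ _ (hV' _) (V.pow_mem hyV _)
  have h0 : algebraMap (Algebra.adjoin k (Set.range u)) K (P.coeff 0) =
      -(Polynomial.aeval y P.divX * y) := by linear_combination hP
  have h1 : V.valuation (algebraMap (Algebra.adjoin k (Set.range u)) K (P.coeff 0)) < 1 := by
    rw [h0, Valuation.map_neg, map_mul]
    calc V.valuation (Polynomial.aeval y P.divX) * V.valuation y ≤ 1 * V.valuation y :=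
          mul_le_mul_left ((V.valuation_le_one_iff _).2 hdV) _
      _ < 1 := by rwa [one_mul]
  obtain ⟨f, hf⟩ := hmem (P.coeff 0)
  refine ⟨f, ?_, ?_⟩
  · rintro rfl
    apply hP0
    apply Subtype.ext
    rw [← hf, map_zero]
    rfl
  · rw [hf]
    exact h1

/-- **The centre of a divisor on `k[u]`.** -/
theorem exists_P {p : ℕ} [hp : Fact p.Prime] [CharP k p] (hperf : ∀ c : k, ∃ d, d ^ p = c)
    (hk : ∀ c : k, algebraMap k K c ∈ V) {u : Fin n → K} (hu : ∀ l, u l ∈ V)
    (hne : ∃ Q : MvPolynomial (Fin n) k, Q ≠ 0 ∧ V.valuation (aeval u Q) < 1)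
    {m : ℕ} (t : Fin m → MvPolynomial (Fin n) k) (ht : IndV k V fun i => aeval u (t i))
    (hmn : n ≤ m + 1) :
    ∃ P : MvPolynomial (Fin n) k, Irreducible P ∧
      (∀ Q : MvPolynomial (Fin n) k, V.valuation (aeval u Q) < 1 ↔ P ∣ Q) ∧
      ∃ l₀, V.valuation (aeval u (pderiv l₀ P)) = 1 := by
  obtain ⟨q, hq, hmem⟩ := exists_centre hk hu
  have hq0 : q ≠ ⊥ := by
    obtain ⟨Q, hQ, hQ1⟩ := hne
    intro h
    have h1 := (hmem Q).2 hQ1
    rw [h, Ideal.mem_bot] at h1
    exact hQ h1
  have hind : IndMod k q t := by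
    intro f hf
    by_contra hf0
    have h1 := ht f hf0
    rw [hmem] at hf
    have e : aeval u (aeval t f) = aeval (fun i => aeval u (t i)) f := by
      have : (aeval (fun i => aeval u (t i)) : MvPolynomial (Fin m) k →ₐ[k] K) =
          (aeval u).comp (aeval t) := by
        ext i
        simp
      rw [this]
      rfl
    rw [e, h1] at hf
    exact lt_irrefl _ hf
  have htr : Algebra.trdeg k (MvPolynomial (Fin n) k) ≤ n := by
    rw [MvPolynomial.trdeg_of_isDomain]
    simp
  have hh := TG51.height_one_of_indMod hq0 hind htr hmn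
  obtain ⟨P, hP, hPq⟩ := height_one_principal hh
  obtain ⟨l₀, hl₀⟩ := exists_pderiv_not_dvd hperf hP
  have hPQ : ∀ Q : MvPolynomial (Fin n) k, V.valuation (aeval u Q) < 1 ↔ P ∣ Q := fun Q => by
    rw [← hmem, hPq]
  refine ⟨P, hP, hPQ, l₀, ?_⟩
  refine le_antisymm ((V.valuation_le_one_iff _).2 ?_) (not_lt.1 fun h => hl₀ ((hPQ _).1 h))
  generalize pderiv l₀ P = Q
  induction Q using MvPolynomial.induction_on with
  | C a => rw [MvPolynomial.algHom_C]; exact hk a
  | add P Q hP hQ => rw [map_add]; exact add_mem hP hQ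
  | mul_X P i hP => rw [map_mul, MvPolynomial.aeval_X]; exact mul_mem hP (hu i)

end Prin

end Pool.Agent.TGBC50
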