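import Pool.Agent.Lib.TGBC_h50.TameR
import Pool.Agent.Lib.TGBC_h50.Prin
import Pool.Agent.Lib.TG_h51.FracV

/-!
# TANK G, bridge B -> C, divisors: `rram(V, u) ≤ ord_V(a_J) + ρ ord_V(a_T)`
-/

set_option autoImplicit false

namespace Pool.Agent.TGBC50

open MvPolynomial
open Pool.Agent.TG (Ov ZDim IsMin ch Walt Wd Wd_cons)
open Pool.Agent.TG15 (Gt Tp vanish ti bi bx tx ix smulK)
open Pool.Agent.TGJ (IsOrd Pres jac rram rram_le HasD)
open Pool.Agent.TGh4 (Disc IsUnif ordV)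
open Pool.Agent.TG51 (IndV IndMod)

universe u

section Residues

variable {k K : Type*} [Field k] [Field K] [Algebra k K] {V : ValuationSubring K} {n : ℕ}

theorem span_prime_height {P : MvPolynomial (Fin n) k} (hP : Irreducible P) :
    ∃ _ : (Ideal.span {P}).IsPrime, (Ideal.span {P}).height = 1 := by
  have hp : Prime P := hP.prime
  have hPr : (Ideal.span {P}).IsPrime := (Ideal.span_singleton_prime hp.ne_zero).2 hp
  refine ⟨hPr, TG51.height_eq_one_of_forall ?_ ?_⟩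
  · rw [Ne, Ideal.span_singleton_eq_bot]
    exact hp.ne_zero
  · intro Q hQ hlt
    by_contra hne
    obtain ⟨R, hRQ, hR⟩ := hQ.exists_mem_prime_of_ne_bot hne
    have h1 : P ∣ R := Ideal.mem_span_singleton.1 (hlt.le hRQ)
    have h2 : R ∣ P := (hp.irreducible.associated_of_dvd hR.irreducible h1).symm.dvd
    have h3 : P ∈ Q := by
      obtain ⟨c, hc⟩ := h2
      rw [hc]
      exact Q.mul_mem_right _ hRQ
    exact hlt.not_ge ((Ideal.span_singleton_le_iff_mem _).2 h3)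

/-- All the `u l` but one have independent residues. -/
theorem exists_indV_of_P (hk : ∀ c : k, algebraMap k K c ∈ V) {u : Fin n → K}
    (hu : ∀ l, u l ∈ V) {P : MvPolynomial (Fin n) k} (hP : Irreducible P)
    (hPQ : ∀ Q : MvPolynomial (Fin n) k, V.valuation (aeval u Q) < 1 → P ∣ Q) :
    ∃ (m : ℕ) (t : Fin m → K), n ≤ m + 1 ∧ (∀ i, ∃ l, t i = u l) ∧ IndV k V t := by
  classical
  obtain ⟨hPr, hh⟩ := span_prime_height hP
  obtain ⟨i, hi⟩ := TG51.exists_indMod_mv (Ideal.span {P}) hh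
  have hmem : ∀ Q : MvPolynomial (Fin n) k, aeval u Q ∈ V := aeval_mem_of hk hu
  obtain ⟨m, rfl⟩ : ∃ m, n = m + 1 := ⟨n - 1, by have := i.pos; omega⟩
  refine ⟨m, fun j => u (i.succAbove j), le_rfl, fun j => ⟨_, rfl⟩, ?_⟩
  intro f hf
  let e : Fin m ≃ {j : Fin (m + 1) // j ≠ i} := finSuccAboveEquiv i
  have h1 : aeval (fun j => u (i.succAbove j)) f = aeval u
      (aeval (fun j : {j : Fin (m + 1) // j ≠ i} => (X j.1 : MvPolynomial (Fin (m + 1)) k))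
        (rename e f)) := by
    have : (aeval (fun j => u (i.succAbove j)) : MvPolynomial (Fin m) k →ₐ[k] K) =
        ((aeval u).comp (aeval (fun j : {j : Fin (m + 1) // j ≠ i} =>
          (X j.1 : MvPolynomial (Fin (m + 1)) k)))).comp (rename e) := by
      ext j
      simp only [e, aeval_X, AlgHom.comp_apply, rename_X]
      rfl
    rw [this]
    rfl
  refine le_antisymm ((V.valuation_le_one_iff _).2 ?_) (not_lt.1 fun hlt => hf ?_)
  · rw [h1]
    exact hmem _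
  · rw [h1] at hlt
    have h2 := hi _ (Ideal.mem_span_singleton.2 (hPQ _ hlt))
    exact rename_injective e e.injective (by rw [h2, map_zero])

/-- The tame data from the generator of the centre on `k[u]`. -/
theorem tameD_of {p : ℕ} [hp : Fact p.Prime] [CharP k p] (hperf : ∀ c : k, ∃ d, d ^ p = c)
    (hk : ∀ c : k, algebraMap k K c ∈ V) {u : Fin n → K} (hu : ∀ l, u l ∈ V)
    {P : MvPolynomial (Fin n) k} (hP : Irreducible P)
    (hPQ : ∀ Q : MvPolynomial (Fin n) k, V.valuation (aeval u Q) < 1 → P ∣ Q)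
    {t : K} (ht : IsUnif V t) {e : ℕ} (he : 0 < e) (hek : (e : k) ≠ 0) {ε : K}
    (hε : V.valuation ε = 1) (hPe : aeval u P = ε * t ^ e)
    (hsep : ∀ a ∈ V, ∃ G : Polynomial (MvPolynomial (Fin n) k),
      Vp V (G.eval₂ (MvPolynomial.aeval u : MvPolynomial (Fin n) k →ₐ[k] K).toRingHom a) ∧
      V.valuation ((Polynomial.derivative G).eval₂
        (MvPolynomial.aeval u : MvPolynomial (Fin n) k →ₐ[k] K).toRingHom a) = 1) :
    TameD k V u t e := by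
  obtain ⟨l₀, hl₀⟩ := exists_pderiv_not_dvd hperf hP
  refine ⟨hk, hu, ht, he, hek, ⟨P, l₀, ε, hε, ?_, hPe⟩, hsep⟩
  exact le_antisymm ((V.valuation_le_one_iff _).2 (aeval_mem_of hk hu _))
    (not_lt.1 fun h => hl₀ (hPQ _ h))

end Residues

variable {k K : Type u} [Field k] [Field K] [Algebra k K]

/-- The divisors outside the boundary. -/
theorem div_good {V : ValuationSubring K} (hVt : V ≠ ⊤) (hk : Ov k V) {n : ℕ}
    (hn : Algebra.trdeg k K ≤ n) {L W : Submodule k K} (hL : L.FG) (h1L : (1 : K) ∈ L)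
    {c m : ℕ} {τ : K} (hτ : τ ∈ L ^ c) (hW : W ≤ L ^ m) (hT : ¬ Tp L (c + 1 + m) τ W V)
    {B₀ : Subalgebra k K} (hB₀ : B₀ = Algebra.adjoin k ((L : Set K) ∪ {τ⁻¹})) (hfg : B₀.FG)
    (hic : ∀ a : K, IsIntegral B₀ a → a ∈ B₀)
    (hfr : ∀ x : K, ∃ a ∈ B₀, ∃ b ∈ B₀, b ≠ 0 ∧ x = a / b)
    {D : Fin n → Derivation k K K} (hD : ∀ i, ∀ b ∈ B₀, D i b ∈ B₀)
    {τ' : K} (hτ' : τ' ∈ B₀) (hτ'' : τ'⁻¹ ∈ B₀) (hτ'0 : τ' ≠ 0)
    {g : Fin (n + 1) → K} (hg : ∀ l, g l ∈ W * L) (hg0 : g 0 ≠ 0)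
    (hch : ∀ x ∈ ch (W * L) (g 0), x ∈ V)
    {P : MvPolynomial (Fin n) k} (hP : Irreducible P)
    (hPQ : ∀ Q : MvPolynomial (Fin n) k,
      V.valuation (aeval (fun l : Fin n => g l.succ / g 0) Q) < 1 → P ∣ Q)
    (hq : τ' * Wd D g ≠ 0) :
    (∀ i, ∀ a ∈ V, D i a ∈ V) ∧ Disc V ∧
    (rram k V.toSubring (ordV V) (fun l : Fin n => g l.succ / g 0) : ℤ) ≤
      ordV V (τ' * Wd D g) ∧
    ∀ a ∈ bx L (W * L) (m + 1) (g 0) (τ' * Wd D g), a ≠ 0 →
      (rram k V.toSubring (ordV V) (fun l : Fin n => g l.succ / g 0) : ℤ) ≤ ordV V (a : K) := by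
  classical
  obtain ⟨hLV, hτ1, w, hw, hw1⟩ := good_of_not_Tp hk hL h1L hτ hW hT
  have hB₀V : ∀ b ∈ B₀, b ∈ V := by
    intro b hb
    rw [hB₀] at hb
    induction hb using Algebra.adjoin_induction with
    | mem x hx =>
      rcases hx with hx | hx
      · exact hLV x hx
      · rw [Set.mem_singleton_iff] at hx
        rw [hx, ← V.valuation_le_one_iff, map_inv₀, hτ1, inv_one]
    | algebraMap r => exact hk r
    | add x y _ _ h1 h2 => exact V.add_mem _ _ h1 h2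
    | mul x y _ _ h1 h2 => exact V.mul_mem _ _ h1 h2
  have hLB : ∀ x ∈ L, x ∈ B₀ := fun x hx => by
    rw [hB₀]
    exact Algebra.subset_adjoin (Or.inl hx)
  have hLpB : ∀ (i : ℕ), ∀ x ∈ L ^ i, x ∈ B₀ := by
    intro i
    induction i with
    | zero =>
      intro x hx
      rw [pow_zero] at hx
      obtain ⟨a, rfl⟩ := Submodule.mem_one.1 hx
      exact B₀.algebraMap_mem a
    | succ i ih =>
      intro x hx
      rw [pow_succ] at hx
      induction hx using Submodule.mul_induction_on' with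
      | mem_mul_mem a ha b hb => exact B₀.mul_mem (ih a ha) (hLB b hb)
      | add a _ b _ h1 h2 => exact B₀.add_mem h1 h2
  have hHB : ∀ x ∈ W * L, x ∈ B₀ := by
    intro x hx
    refine hLpB (m + 1) x ?_
    rw [pow_succ]
    exact (mul_le_mul' hW (le_refl L)) hx
  -- the value of `g 0`
  have hg1 : V.valuation (g 0) = 1 := by
    refine le_antisymm ((V.valuation_le_one_iff _).2 (hB₀V _ (hHB _ (hg 0)))) ?_
    have h1 : w / g 0 ∈ V := by
      refine hch _ (Algebra.subset_adjoin ⟨w, ?_, rfl⟩)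
      have := Submodule.mul_mem_mul hw h1L
      rwa [mul_one] at this
    rw [← V.valuation_le_one_iff, map_div₀, hw1] at h1
    exact (div_le_one₀ (zero_lt_iff.2 ((Valuation.ne_zero_iff _).2 hg0))).1 h1
  have hu : ∀ l : Fin n, g l.succ / g 0 ∈ V := fun l =>
    hch _ (Algebra.subset_adjoin ⟨g l.succ, hg _, rfl⟩)
  obtain ⟨m', t, hnm, ht, hind⟩ := exists_indV_of_P hk hu hP hPQ
  -- the instances
  have hnoeth : IsNoetherianRing B₀ := by
    have : Algebra.FiniteType k B₀ := B₀.fg_iff_finiteType.1 hfg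
    exact Algebra.FiniteType.isNoetherianRing k B₀
  have hfrac : IsFractionRing B₀ K := by
    refine IsFractionRing.of_field _ _ fun z => ?_
    obtain ⟨a, ha, b, hb, -, hz⟩ := hfr z
    exact ⟨⟨a, ha⟩, ⟨b, hb⟩, hz⟩
  have hicl : IsIntegrallyClosed B₀ := by
    rw [isIntegrallyClosed_iff K]
    intro x hx
    exact ⟨⟨x, hic x hx⟩, rfl⟩
  obtain ⟨hdisc, hfracV⟩ := TG51.frac_of_indV (A := B₀) (fun a => hB₀V _ a.2) hVt (t := t)
    (fun i => by
      obtain ⟨l, hl⟩ := ht i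
      refine ⟨⟨g l.succ, hHB _ (hg _)⟩, ⟨g 0, hHB _ (hg 0)⟩, hg1, ?_⟩
      rw [hl]
      exact div_mul_cancel₀ _ hg0) hind hn hnm
  have hDV : ∀ i, ∀ a ∈ V, D i a ∈ V := fun i a ha =>
    TG51.deriv_mem_of_frac (A := B₀) (fun a => hB₀V _ a.2) hfracV (D i)
      (fun b => ⟨⟨D i b, hD i _ b.2⟩, rfl⟩) ha
  have hτ'1 : V.valuation τ' = 1 := by
    refine le_antisymm ((V.valuation_le_one_iff _).2 (hB₀V _ hτ')) ?_
    have h1 := (V.valuation_le_one_iff _).2 (hB₀V _ hτ'')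
    rw [map_inv₀] at h1
    exact (inv_le_one₀ (zero_lt_iff.2 ((Valuation.ne_zero_iff _).2 hτ'0))).1 h1
  have h1 := rram_good hdisc hDV hτ'1 hg1 hu hq
  refine ⟨hDV, hdisc, h1, fun a ha ha0 => h1.trans ?_⟩
  have ha0' : (a : K) ≠ 0 := fun h => ha0 (Subtype.ext h)
  rw [← TGh4.val_le_iff hdisc ha0' hq]
  exact bx_val hk hLV hg1 hch ha

/-- The divisors in the boundary. -/
theorem div_bd {V : ValuationSubring K} {n : ℕ} {L W : Submodule k K} {N : ℕ} {τ : K}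
    (hT : Tp L N τ W V) {g : Fin (n + 1) → K} (hg0 : g 0 ≠ 0)
    (hch : ∀ x ∈ ch (W * L) (g 0), x ∈ V) {t : K} {e ρ : ℕ}
    (hTD : TameD k V (fun l : Fin n => g l.succ / g 0) t e) (heρ : e ≤ ρ)
    (hD : HasD k V.toSubring (fun l : Fin n => g l.succ / g 0)) :
    ∀ a ∈ tx L W N τ (g 0), a ≠ 0 →
      (rram k V.toSubring (ordV V) (fun l : Fin n => g l.succ / g 0) : ℤ) + 1 ≤
        ρ * ordV V (a : K) := by
  intro a ha ha0
  have hV : Disc V := ⟨t, hTD.unif⟩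
  have ha0' : (a : K) ≠ 0 := fun h => ha0 (Subtype.ext h)
  rw [tame_rram hTD hD]
  have h1 : V.valuation (a : K) < 1 := by
    refine tx_val hT hg0 (fun x hx => ?_) hch ha
    exact hch _ (Algebra.subset_adjoin ⟨x, hx, rfl⟩)
  have h2 : 0 < ordV V (a : K) := (TGh4.lt_one_iff hV ha0').1 h1
  have h3 : (e : ℤ) ≤ ρ := by exact_mod_cast heρ
  have h4 : (0 : ℤ) ≤ ρ := Int.natCast_nonneg _
  have h5 : (ρ : ℤ) * 1 ≤ ρ * ordV V (a : K) := mul_le_mul_of_nonneg_left h2 h4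
  linarith

/-- **All divisors.** -/
theorem div_ge {V : ValuationSubring K} (hk : Ov k V) {n : ℕ}
    (hn : Algebra.trdeg k K ≤ n) {L W : Submodule k K} (hL : L.FG) (h1L : (1 : K) ∈ L)
    {c m : ℕ} {τ : K} (hτ : τ ∈ L ^ c) (hW : W ≤ L ^ m)
    {B₀ : Subalgebra k K} (hB₀ : B₀ = Algebra.adjoin k ((L : Set K) ∪ {τ⁻¹})) (hfg : B₀.FG)
    (hic : ∀ a : K, IsIntegral B₀ a → a ∈ B₀)
    (hfr : ∀ x : K, ∃ a ∈ B₀, ∃ b ∈ B₀, b ≠ 0 ∧ x = a / b)
    {D : Fin n → Derivation k K K} (hD : ∀ i, ∀ b ∈ B₀, D i b ∈ B₀)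
    {τ' : K} (hτ' : τ' ∈ B₀) (hτ'' : τ'⁻¹ ∈ B₀) (hτ'0 : τ' ≠ 0)
    {g : Fin (n + 1) → K} (hg : ∀ l, g l ∈ W * L) (hg0 : g 0 ≠ 0)
    (hch : ∀ x ∈ ch (W * L) (g 0), x ∈ V)
    {P : MvPolynomial (Fin n) k} (hP : Irreducible P)
    (hPQ : ∀ Q : MvPolynomial (Fin n) k,
      V.valuation (aeval (fun l : Fin n => g l.succ / g 0) Q) < 1 → P ∣ Q)
    (hq : τ' * Wd D g ≠ 0) {t : K} {e ρ : ℕ}
    (hTD : TameD k V (fun l : Fin n => g l.succ / g 0) t e) (heρ : e ≤ ρ)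
    (hHD : HasD k V.toSubring (fun l : Fin n => g l.succ / g 0))
    (aJ aT : ch (W * L) (g 0)) (hJ : aJ ∈ bx L (W * L) (m + 1) (g 0) (τ' * Wd D g))
    (hJ0 : aJ ≠ 0) (hT : aT ∈ tx L W (c + 1 + m) τ (g 0)) (hT0 : aT ≠ 0) :
    (rram k V.toSubring (ordV V) (fun l : Fin n => g l.succ / g 0) : ℤ) ≤
      ordV V ((aJ * aT ^ ρ : ch (W * L) (g 0)) : K) := by
  have hVt : V ≠ ⊤ := by
    rintro rfl
    have h1 := hTD.unif.lt
    have h2 : (⊤ : ValuationSubring K).valuation t = 1 := by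
      refine le_antisymm ((ValuationSubring.valuation_le_one_iff _ _).2 trivial) ?_
      have h3 : (⊤ : ValuationSubring K).valuation t⁻¹ ≤ 1 :=
        (ValuationSubring.valuation_le_one_iff _ _).2 trivial
      rw [map_inv₀] at h3
      exact (inv_le_one₀ hTD.unif.pos).1 h3
    exact absurd h1 (by rw [h2]; exact lt_irrefl _)
  have hJ0' : (aJ : K) ≠ 0 := fun h => hJ0 (Subtype.ext h)
  have hT0' : (aT : K) ≠ 0 := fun h => hT0 (Subtype.ext h)
  have e1 : ordV V ((aJ * aT ^ ρ : ch (W * L) (g 0)) : K) =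
      ordV V (aJ : K) + ρ * ordV V (aT : K) := by
    rw [Subalgebra.coe_mul, Subalgebra.coe_pow, TGh4.ordV_mul V hJ0' (pow_ne_zero _ hT0'),
      TGh4.ordV_pow]
  have hJn : 0 ≤ ordV V (aJ : K) := TGh4.ordV_nonneg_of_mem (hch _ aJ.2)
  have hTn : 0 ≤ ordV V (aT : K) := TGh4.ordV_nonneg_of_mem (hch _ aT.2)
  have hρ : (0 : ℤ) ≤ ρ := Int.natCast_nonneg _
  rw [e1]
  by_cases hTp : Tp L (c + 1 + m) τ W V
  · have h1 := div_bd hTp hg0 hch hTD heρ hHD aT hT hT0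
    linarith
  · have h1 := (div_good hVt hk hn hL h1L hτ hW hTp hB₀ hfg hic hfr hD hτ' hτ'' hτ'0 hg hg0 hch
      hP hPQ hq).2.2.2 aJ hJ hJ0
    have h2 : 0 ≤ (ρ : ℤ) * ordV V (aT : K) := mul_nonneg hρ hTn
    linarith

end Pool.Agent.TGBC50
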