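import Pool.Agent.Lib.TGBC_h50.DivGe
import Pool.Agent.Lib.TGBC_h29.Rows
import Pool.Agent.Lib.TGBC_h90.Tame
import Pool.Agent.Lib.TGJ.Link
import Pool.Agent.Lib.TGJ.DivS
import Pool.Agent.Lib.TGJ_h11.ExD2

/-!
# TANK G, bridge B -> C: the row DIV
-/

set_option autoImplicit false

namespace Pool.Agent.TGBC50

open MvPolynomial
open Pool.Agent.TG (Ov ZDim IsMin ch Walt Wd Wd_cons NV Fin' IsModel)
open Pool.Agent.TG15 (Gt Tp vanish ti bi bx tx ix smulK hx)
open Pool.Agent.TGJ
open Pool.Agent.TGh4 (Disc IsUnif ordV)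
open Pool.Agent.TGBC (IsResOf RowDiv RowSep C₁)
open Pool.Agent.TGBC90 (Thru Fu Au up_Au Au_ic mem_Au ev exists_tameD')

universe u

variable {k K : Type u} [Field k] [Field K] [Algebra k K]

theorem div_ov {S : Subalgebra k K} {E : ValuationSubring K} (hE : IsDiv S E) : Ov k E :=
  fun c => hE.le _ (S.algebraMap_mem c)

theorem div_unit {S : Subalgebra k K} {res : S →ₐ[k] k} (hS : NPt S res)
    {E : ValuationSubring K} (hE : IsDiv S E) (a : S) (ha : res a ≠ 0) :
    E.valuation (a : K) = 1 := by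
  have ha0 : (a : K) ≠ 0 := fun h => ha (by
    have h1 : a = 0 := Subtype.ext h
    rw [h1, map_zero])
  have h1 := (E.valuation_le_one_iff _).2 (hE.le _ a.2)
  have h2 := (E.valuation_le_one_iff _).2 (hE.le _ (hS.inv a ha))
  rw [map_inv₀] at h2
  exact le_antisymm h1 ((inv_le_one₀ (zero_lt_iff.2 ((Valuation.ne_zero_iff _).2 ha0))).1 h2)

/-- The ring of a prime divisor is a localisation of a finitely generated algebra. -/
theorem locFG_div {S : Subalgebra k K} {res : S →ₐ[k] k} (hS : NPt S res)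
    {E : ValuationSubring K} (hE : IsDiv S E) : LocFG k E.toSubring := by
  obtain ⟨A, ⟨s, hs⟩, hAS, hloc⟩ := hS.fg
  refine ⟨s, fun a ha => hE.le _ (hAS (hs ▸ ha)), fun x hx => ?_⟩
  obtain ⟨a, ha, b, hb, hb1, hxb⟩ := hE.loc x hx
  obtain ⟨a₁, a₂, ha2, hae⟩ := hloc ⟨a, ha⟩
  obtain ⟨b₁, b₂, hb2, hbe⟩ := hloc ⟨b, hb⟩
  have ha2' : E.valuation (a₂ : K) = 1 :=
    div_unit hS hE (Subalgebra.inclusion hAS a₂) (by rw [ha2]; exact one_ne_zero)
  have hb2' : E.valuation (b₂ : K) = 1 :=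
    div_unit hS hE (Subalgebra.inclusion hAS b₂) (by rw [hb2]; exact one_ne_zero)
  have hae' : a * (a₂ : K) = a₁ := hae
  have hbe' : b * (b₂ : K) = b₁ := hbe
  have hb1' : E.valuation (b₁ : K) = 1 := by rw [← hbe', map_mul, hb1, hb2', mul_one]
  have hne : ∀ y : K, E.valuation y = 1 → y ≠ 0 := fun y hy h => by
    rw [h, map_zero] at hy
    exact zero_ne_one hy
  have hd1 : E.valuation ((b₁ : K) * a₂) = 1 := by rw [map_mul, hb1', ha2', mul_one]
  rw [hs]
  refine ⟨(a₁ : K) * b₂, A.mul_mem a₁.2 b₂.2, (b₁ : K) * a₂, A.mul_mem b₁.2 a₂.2, hne _ hd1,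
    ?_, ?_⟩
  · change ((b₁ : K) * a₂)⁻¹ ∈ E
    rw [← E.valuation_le_one_iff, map_inv₀, hd1, inv_one]
  · rw [eq_div_iff (hne _ hd1), ← hae', ← hbe', ← hxb]
    ring

/-- The centre of a prime divisor of the integral closure of `k[u]` on `k[u]`. -/
theorem exists_P_of_div {n : ℕ} {u : Fin n → K} (hu : AlgebraicIndependent k u)
    {E : ValuationSubring K} (hE : IsDiv (icf k u) E) :
    ∃ P : MvPolynomial (Fin n) k, Irreducible P ∧
      ∀ Q : MvPolynomial (Fin n) k, E.valuation (aeval u Q) < 1 ↔ P ∣ Q := by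
  classical
  have hmem : ∀ Q : MvPolynomial (Fin n) k, aeval u Q ∈ icf k u := fun Q => kf_le_icf u (by
    rw [kf, Algebra.adjoin_range_eq_range_aeval]
    exact ⟨Q, rfl⟩)
  let φ : MvPolynomial (Fin n) k →ₐ[k] icf k u := (aeval u).codRestrict (icf k u) hmem
  have hφ : Function.Injective φ := fun a b h => hu (congrArg Subtype.val h)
  let _ : Algebra (MvPolynomial (Fin n) k) (icf k u) := φ.toRingHom.toAlgebra
  have hint : Algebra.IsIntegral (MvPolynomial (Fin n) k) (icf k u) := ⟨fun c => by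
    obtain ⟨p, hp, hpc⟩ := c.2
    let ψ : MvPolynomial (Fin n) k →+* kf k u :=
      ((aeval u : MvPolynomial (Fin n) k →ₐ[k] K).codRestrict (kf k u) fun Q => by
        rw [kf, Algebra.adjoin_range_eq_range_aeval]
        exact ⟨Q, rfl⟩).toRingHom
    have hψ : Function.Surjective ψ := by
      rintro ⟨b, hb⟩
      have hb' := hb
      rw [kf, Algebra.adjoin_range_eq_range_aeval] at hb'
      obtain ⟨Q, hQ⟩ := hb'
      exact ⟨Q, Subtype.ext hQ⟩
    obtain ⟨q, hq, hqm⟩ := Polynomial.lifts_and_natDegree_eq_and_monic (f := ψ) (p := p)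
      ((Polynomial.mem_lifts _).2 (Polynomial.map_surjective _ hψ p)) hp
    refine ⟨q, hqm.2, Subtype.ext ?_⟩
    rw [← hq, Polynomial.eval₂_map] at hpc
    have h1 := Polynomial.hom_eval₂ q (algebraMap (MvPolynomial (Fin n) k) (icf k u))
      ((icf k u).val : icf k u →+* K) c
    exact h1.trans hpc⟩
  have hfaith : FaithfulSMul (MvPolynomial (Fin n) k) (icf k u) :=
    (faithfulSMul_iff_algebraMap_injective _ _).2 hφ
  have hfrac : IsFractionRing (icf k u) K := by
    refine IsFractionRing.of_field _ _ fun z => ?_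
    rcases E.mem_or_inv_mem z with hz | hz
    · obtain ⟨a, ha, b, hb, hb1, e⟩ := hE.loc z hz
      have hb0 : b ≠ 0 := fun h => by rw [h, map_zero] at hb1; exact zero_ne_one hb1
      refine ⟨⟨a, ha⟩, ⟨b, hb⟩, ?_⟩
      change z = a / b
      rw [eq_div_iff hb0, e]
    · obtain ⟨a, ha, b, hb, hb1, e⟩ := hE.loc _ hz
      have hb0 : b ≠ 0 := fun h => by rw [h, map_zero] at hb1; exact zero_ne_one hb1
      refine ⟨⟨b, hb⟩, ⟨a, ha⟩, ?_⟩
      change z = b / a
      rw [← e]
      rcases eq_or_ne z 0 with rfl | hz0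
      · simp
      · field_simp
  have hh := hE.height
  obtain ⟨q, hqdef⟩ : ∃ q, q = (cen (icf k u) E).comap
      (algebraMap (MvPolynomial (Fin n) k) (icf k u)) := ⟨_, rfl⟩
  have hqp : q.IsPrime := by rw [hqdef]; exact Ideal.IsPrime.comap _
  have hmemq : ∀ Q, Q ∈ q ↔ E.valuation (aeval u Q) < 1 := fun Q => by
    rw [hqdef, Ideal.mem_comap, hE.mem_cen]
    rfl
  have hlies : (cen (icf k u) E).LiesOver q := ⟨hqdef⟩
  have hq0 : q ≠ ⊥ := by
    intro h0
    rw [h0] at hqdef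
    exact Ideal.ne_bot_of_height_eq_one hh (Ideal.eq_bot_of_comap_eq_bot hqdef.symm)
  have hqh : q.height = 1 := by
    refine TG51.height_eq_one_of_forall hq0 fun Q hQ hlt => ?_
    obtain ⟨Q', hQ'lt, hQ', hQ'over⟩ := Ideal.exists_ideal_lt_liesOver_of_lt
      (cen (icf k u) E) hlt
    have h1 := TG51.eq_bot_of_lt hh hQ'lt
    rw [hQ'over.over, h1, Ideal.under_def]
    exact Ideal.comap_bot_of_injective _ hφ
  obtain ⟨P, hP, hPq⟩ := height_one_principal hqh
  exact ⟨P, hP, fun Q => by rw [← hmemq, hPq]⟩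

theorem adjoin_union_fg {L : Submodule k K} (hL : L.FG) (y : K) :
    (Algebra.adjoin k ((L : Set K) ∪ {y})).FG := by
  classical
  obtain ⟨s, hs⟩ := hL
  refine ⟨insert y s, ?_⟩
  rw [← hs, Algebra.adjoin_union, Algebra.adjoin_span, ← Algebra.adjoin_union,
    Finset.coe_insert, Set.union_singleton]

/-- **Row DIV.** -/
theorem rowDiv (h4 : InR4 k K) (hSep : RowSep k K) : RowDiv k K := by
  classical
  intro hk hfgK p hp hchar n htr hCp L W c m τ τ' D hL h1L hτ hW hW0 hfin hτ0 hN hic hD hfr V hV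
    res hres hS g hg0 hg hq u hu hprop hrho E hE
  have := hk
  have : Fact p.Prime := ⟨hp⟩
  have := hchar
  obtain ⟨N, hN⟩ := hN
  set uK : Fin (n + 1) → K := fun l => (u l : K) with huK
  have huK' : uK = fun l : Fin (n + 1) => g l.succ / g 0 := funext hu
  obtain ⟨hai, hfd, x, hx0, hxd⟩ := h4 (NV V (W * L)) res hS (n + 1) htr u hprop
  have hgne : g 0 ≠ 0 := hg0.ne
  -- the Jacobian
  have hW0' : Wd D g ≠ 0 := right_ne_zero_of_mul hq
  have hjac : jac D uK ≠ 0 := by
    have e1 : Wd D g = g 0 ^ (n + 2) * (jac D fun l : Fin (n + 1) => g l.succ / g 0) := by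
      have h1 : g = Fin.cons (g 0) (fun l : Fin (n + 1) => g l.succ) := by
        funext j
        refine Fin.cases ?_ (fun l => ?_) j <;> simp
      conv_lhs => rw [h1]
      rw [Wd_cons D _ hgne]
      congr 1
      unfold jac
      rw [← Matrix.det_transpose]
      rfl
    rw [e1] at hW0'
    rw [huK']
    exact right_ne_zero_of_mul hW0'
  have hsep : Algebra.IsSeparable (Fu k uK) K :=
    hSep inferInstance hfgK (n + 1) htr D uK hjac
  have : FiniteDimensional (Fu k uK) K := hfd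
  -- the integral closure of `k[u]`
  have hf : kf k uK = TG.up K (Au k uK) := (up_Au uK).symm
  have hfr' : ∀ y : Fu k uK, ∃ a ∈ Au k uK, ∃ b ∈ Au k uK, b ≠ 0 ∧ y = a / b := by
    intro y
    obtain ⟨r, s, hs, h⟩ := TGBC90.exists_frac uK y
    refine ⟨ev uK r, (ev uK r).2, ev uK s, (ev uK s).2, ?_, Subtype.ext h⟩
    intro h0
    apply hs
    have h1 := TGBC90.ev_coe uK s
    rw [h0] at h1
    exact h1.symm
  let x' : TG.ncl (TG.up K (Au k uK)) →ₐ[k] k := x.comp (icfE hf).symm.toAlgHom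
  have hxx' : x'.comp (icfE hf).toAlgHom = x := comp_symm hf x
  have hlink : TGJ.rho uK x = TG82.rho (Au k uK) x' := by
    have h1 := link_rho (fun b hb => Au_ic hai b hb) hf hfr' x' (by rw [hxx']; exact hx0)
    rwa [hxx'] at h1
  have hfin0 : {y : icf k uK →ₐ[k] k | Over0 uK y}.Finite :=
    (isRho_rfun (fun b hb => Au_ic hai b hb) hf hfr').fin
  have hle : TGJ.rho uK x ≤ Rho (NV V (W * L)).val res u := by
    unfold Rho
    have hfin' : {y : icf k (fun i => (NV V (W * L)).val (u i)) →ₐ[k] k |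
        Over0 _ y ∧ Doms (NV V (W * L)).val res _ y}.Finite := hfin0.subset fun y hy => hy.1
    rw [finsum_mem_eq_finite_toFinset_sum _ hfin']
    exact Finset.single_le_sum
      (f := fun y => TGJ.rho (fun i => (NV V (W * L)).val (u i)) y) (fun _ _ => Nat.zero_le _)
      (hfin'.mem_toFinset.2 ⟨hx0, hxd⟩)
  have hrho' : TG82.rho (Au k uK) x' ≤ C₁ (n + 1) := by
    rw [← hlink]
    exact hle.trans hrho
  -- `S` and `icf`
  have huS : kf k uK ≤ NV V (W * L) := by
    refine Algebra.adjoin_le ?_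
    rintro _ ⟨l, rfl⟩
    exact (u l).2
  have hCS : ∀ c ∈ icf k uK, c ∈ NV V (W * L) := by
    intro c hc
    refine hS.ic c ?_
    obtain ⟨q, hq, hqc⟩ := hc
    refine ⟨q.map (Subalgebra.inclusion huS).toRingHom, hq.map _, ?_⟩
    rw [Polynomial.eval₂_map]
    exact hqc
  have hxres : ∀ c : icf k uK, x c = res ⟨c, hCS c c.2⟩ := by
    intro c
    obtain ⟨a, b, hb, hab, ha⟩ := hxd ⟨c, hCS c c.2⟩
    have h1 : c * b = a := Subtype.ext hab
    rw [← ha, ← h1, map_mul, hb, mul_one]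
  have hunit : ∀ c : icf k uK, x c ≠ 0 → E.valuation (c : K) = 1 := by
    intro c hc
    rw [hxres] at hc
    exact div_unit hS hE _ hc
  have hED : IsDiv (icf k uK) E := by
    refine ⟨fun c hc => hE.le _ (hCS c hc), fun y hy => ?_, hE.disc⟩
    obtain ⟨a, ha, b, hb, hb1, hyb⟩ := hE.loc y hy
    obtain ⟨a₁, a₂, ha2, hae, -⟩ := hxd ⟨a, ha⟩
    obtain ⟨b₁, b₂, hb2, hbe, -⟩ := hxd ⟨b, hb⟩
    have hae' : a * (a₂ : K) = a₁ := hae
    have hbe' : b * (b₂ : K) = b₁ := hbe
    have ha2' := hunit a₂ (by rw [ha2]; exact one_ne_zero)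
    have hb2' := hunit b₂ (by rw [hb2]; exact one_ne_zero)
    refine ⟨(a₁ : K) * b₂, (icf k uK).mul_mem a₁.2 b₂.2, (b₁ : K) * a₂,
      (icf k uK).mul_mem b₁.2 a₂.2, ?_, ?_⟩
    · rw [map_mul, ← hbe', map_mul, hb1, hb2', ha2', mul_one, mul_one]
    · rw [← hae', ← hbe', ← hyb]
      ring
  obtain ⟨P, hP, hPQ⟩ := exists_P_of_div hai hED
  obtain ⟨t, ht⟩ := hE.disc
  have hicf : icf k uK = TG.ncl (TG.up K (Au k uK)) := icf_eq hf
  have hThru : Thru (Au k uK) x' E := by
    refine ⟨fun c hc => hE.le _ (hCS c (by rw [hicf]; exact hc)), fun c hc => ?_, fun a ha => ?_⟩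
    · by_contra h0
      have h1 := hunit ((icfE hf).symm c) h0
      rw [icfE_symm_coe] at h1
      rw [h1] at hc
      exact lt_irrefl _ hc
    · obtain ⟨b, hb, s, hs, hs1, e⟩ := hED.loc a ha
      refine ⟨b, by rw [← hicf]; exact hb, s, by rw [← hicf]; exact hs, hs1, ?_⟩
      have hs0 : s ≠ 0 := fun h => by rw [h, map_zero] at hs1; exact zero_ne_one hs1
      rw [eq_div_iff hs0, e]
  obtain ⟨e, he, hTD⟩ := exists_tameD' hai hThru (lt_of_le_of_lt hrho' hCp) hP hPQ ht
  have hHD : HasD k E.toSubring uK := hasD_of_jac hE.isOrd (locFG_div hS hE) D hjac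
  have hgH : ∀ l, g l ∈ W * L := by
    intro l
    refine Fin.cases hg0.mem (fun l => (hg l).1) l
  have hch : ∀ y ∈ ch (W * L) (g 0), y ∈ E := by
    have h1 : ch (W * L) (g 0) ≤ NV V (W * L) := by
      refine Algebra.adjoin_le ?_
      rintro _ ⟨y, hy, rfl⟩
      exact TG.RV_le_NV (TG.div_mem_RV hg0 hy)
    exact fun y hy => hE.le _ (h1 hy)
  have hramV : ramV E u = rram k E.toSubring (ordV E) uK := rfl
  constructor
  · intro hnT a ha ha0
    have hVt : E ≠ ⊤ := by
      rintro rfl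
      have h1 := ht.lt
      have h3 : (⊤ : ValuationSubring K).valuation t⁻¹ ≤ 1 :=
        (ValuationSubring.valuation_le_one_iff _ _).2 trivial
      rw [map_inv₀] at h3
      exact absurd h1 (not_lt.2 ((inv_le_one₀ ht.pos).1 h3))
    have hLB : ∀ y ∈ L, y ∈ Algebra.adjoin k ((L : Set K) ∪ {τ⁻¹}) := fun y hy =>
      Algebra.subset_adjoin (Or.inl hy)
    have hpow : ∀ (i : ℕ), ∀ y ∈ L ^ i, y ∈ Algebra.adjoin k ((L : Set K) ∪ {τ⁻¹}) := by
      intro i
      induction i with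
      | zero =>
        intro y hy
        rw [pow_zero] at hy
        obtain ⟨a, rfl⟩ := Submodule.mem_one.1 hy
        exact Subalgebra.algebraMap_mem _ a
      | succ i ih =>
        intro y hy
        rw [pow_succ] at hy
        induction hy using Submodule.mul_induction_on' with
        | mem_mul_mem a ha b hb => exact Subalgebra.mul_mem _ (ih a ha) (hLB b hb)
        | add a _ b _ h1 h2 => exact Subalgebra.add_mem _ h1 h2
    have h1 := (div_good (D := D) hVt (div_ov hE) (n := n + 1) htr.le hL h1L hτ hW hnT rfl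
      (adjoin_union_fg hL _) hic hfr hD (τ' := τ')
      (by rw [hN]; exact Subalgebra.pow_mem _ (hpow c τ hτ) N)
      (by
        rw [hN, ← inv_pow]
        exact Subalgebra.pow_mem _ (Algebra.subset_adjoin
          (Set.mem_union_right (L : Set K) (Set.mem_singleton τ⁻¹))) N)
      (by rw [hN]; exact pow_ne_zero _ hτ0) hgH hgne hch hP
      (fun Q hQ => by
        have hQ' : E.valuation (aeval uK Q) < 1 := by rw [huK']; exact hQ
        exact (hPQ Q).1 hQ') hq).2.2.2 a ha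
      (fun h => ha0 (by rw [h]; rfl))
    rw [hramV, huK']
    exact h1
  · intro hT
    have h1 := tame_rram hTD hHD
    have h2 : (0 : ℤ) < e := by exact_mod_cast hTD.pos
    refine ⟨?_, fun a ha ha0 => ?_⟩
    · have h3 : (ramV E u : ℤ) = e - 1 := h1
      have h4 : (e : ℤ) ≤ C₁ (n + 1) := by exact_mod_cast he.trans hrho'
      have h5 : (ramV E u : ℤ) < C₁ (n + 1) := by linarith
      exact_mod_cast h5
    · have h3 : E.valuation (a : K) < 1 := by
        refine tx_val hT hgne (fun y hy => ?_) hch ha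
        exact hch _ (Algebra.subset_adjoin ⟨y, hy, rfl⟩)
      exact (TGh4.lt_one_iff hE.disc ha0).1 h3

end Pool.Agent.TGBC50
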