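import Pool.Agent.Lib.TG15.Defs
import Pool.Agent.Lib.TG_h35.Wdet
import Pool.Agent.Lib.TGJ_h11.Ram
import Pool.Agent.Lib.TG_h4.OrdV
import Pool.Agent.Lib.TGBC_h50.TameDet

/-!
# TANK G, bridge B -> C, divisors: the divisors outside and inside the boundary `T⁺`
-/

set_option autoImplicit false

namespace Pool.Agent.TGBC50

open Pool.Agent.TG (Ov ZDim IsMin ch Walt Wd Wd_cons)
open Pool.Agent.TG15 (Gt Tp vanish ti bi bx tx ix smulK)
open Pool.Agent.TGJ (IsOrd Pres jac rram rram_le)
open Pool.Agent.TGh4 (Disc IsUnif ordV)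

universe u

variable {k K : Type u} [Field k] [Field K] [Algebra k K]

theorem isOrd_ordV {V : ValuationSubring K} (hV : Disc V) : IsOrd V.toSubring (ordV V) where
  mul := fun _ _ hx hy => TGh4.ordV_mul V hx hy
  mem := fun _ hx => TGh4.mem_iff hV hx

theorem val_pow_le {V : ValuationSubring K} {F : Submodule k K} {c : V.ValueGroup}
    (h : ∀ x ∈ F, V.valuation x ≤ c) (hk : Ov k V) (i : ℕ) :
    ∀ x ∈ F ^ i, V.valuation x ≤ c ^ i := by
  induction i with
  | zero =>
    intro x hx
    rw [pow_zero] at hx ⊢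
    obtain ⟨a, rfl⟩ := Submodule.mem_one.1 hx
    exact (V.valuation_le_one_iff _).2 (hk a)
  | succ i ih =>
    intro x hx
    rw [pow_succ] at hx ⊢
    induction hx using Submodule.mul_induction_on' with
    | mem_mul_mem a ha b hb =>
      rw [map_mul]
      exact mul_le_mul' (ih a ha) (h b hb)
    | add a _ b _ h1 h2 => exact (V.valuation.map_add a b).trans (max_le h1 h2)

/-- A divisor outside the boundary is centred on the affine model. -/
theorem good_of_not_Tp {V : ValuationSubring K} (hk : Ov k V) {L W : Submodule k K} (hL : L.FG)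
    (h1L : (1 : K) ∈ L) {c m : ℕ} {τ : K} (hτ : τ ∈ L ^ c) (hW : W ≤ L ^ m)
    (hT : ¬ Tp L (c + 1 + m) τ W V) :
    (∀ x ∈ L, x ∈ V) ∧ V.valuation τ = 1 ∧ ∃ w ∈ W, V.valuation w = 1 := by
  have h1 : ∃ w ∈ W, ¬ Gt V (τ * w) (L ^ (c + 1 + m)) := by
    by_contra hcon
    push Not at hcon
    exact hT ⟨hk, hcon⟩
  obtain ⟨w, hw, hGt⟩ := h1
  rw [Gt] at hGt
  push Not at hGt
  obtain ⟨hτw, hmax⟩ := hGt
  -- the minimal element of `L`
  have hL0 : L ≠ ⊥ := fun h => by
    rw [h, Submodule.mem_bot] at h1L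
    exact one_ne_zero h1L
  obtain ⟨l, hl, hlmax⟩ : ∃ l ∈ L, ∀ x ∈ L, V.valuation x ≤ V.valuation l := by
    classical
    obtain ⟨S, hS⟩ := hL
    have hSne : S.Nonempty := by
      by_contra h
      rw [Finset.not_nonempty_iff_eq_empty] at h
      rw [h, Finset.coe_empty, Submodule.span_empty] at hS
      exact hL0 hS.symm
    obtain ⟨l, hl, hlmax⟩ := Finset.exists_max_image S (fun x => V.valuation x) hSne
    refine ⟨l, hS ▸ Submodule.subset_span hl, fun x hx => ?_⟩
    rw [← hS] at hx
    induction hx using Submodule.span_induction with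
    | mem x hx => exact hlmax x hx
    | zero => rw [map_zero]; exact zero_le
    | add x y _ _ hx hy => exact (V.valuation.map_add x y).trans (max_le hx hy)
    | smul a x _ hx =>
      rw [Algebra.smul_def, map_mul]
      exact (mul_le_of_le_one_left' ((V.valuation_le_one_iff _).2 (hk a))).trans hx
  have h1l : 1 ≤ V.valuation l := by
    have := hlmax 1 h1L
    rwa [map_one] at this
  have hl0 : 0 < V.valuation l := lt_of_lt_of_le zero_lt_one h1l
  have e1 : V.valuation τ ≤ V.valuation l ^ c := val_pow_le hlmax hk c τ hτ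
  have e2 : V.valuation w ≤ V.valuation l ^ m := val_pow_le hlmax hk m w (hW hw)
  have e3 : V.valuation l ^ (c + 1 + m) ≤ V.valuation τ * V.valuation w := by
    have := hmax (l ^ (c + 1 + m)) (Submodule.pow_mem_pow L hl _)
    rwa [map_pow, map_mul] at this
  have e4 : V.valuation l ≤ 1 := by
    have h2 : V.valuation l ^ (c + m) * V.valuation l ≤ V.valuation l ^ (c + m) * 1 := by
      rw [mul_one, ← pow_succ]
      calc V.valuation l ^ (c + m + 1) = V.valuation l ^ (c + 1 + m) := by
            congr 1; ring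
        _ ≤ V.valuation τ * V.valuation w := e3
        _ ≤ V.valuation l ^ c * V.valuation l ^ m := mul_le_mul' e1 e2
        _ = V.valuation l ^ (c + m) := (pow_add _ _ _).symm
    exact (mul_le_mul_iff_right₀ (pow_pos hl0 _)).1 h2
  have e5 : V.valuation l = 1 := le_antisymm e4 h1l
  rw [e5, one_pow] at e1 e2 e3
  have e6 : V.valuation τ = 1 := by
    refine le_antisymm e1 (e3.trans ?_)
    exact mul_le_of_le_one_right' e2
  refine ⟨fun x hx => (V.valuation_le_one_iff x).1 ((hlmax x hx).trans e4), e6, w, hw, ?_⟩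
  rw [e6, one_mul] at e3
  exact le_antisymm e2 e3

/-- Elements of `b_x(g)` vanish at least like `q(g)`. -/
theorem bx_val {V : ValuationSubring K} (hk : Ov k V) {L H : Submodule k K}
    (hL : ∀ x ∈ L, x ∈ V) {M : ℕ} {f₀ q : K} (hf₀ : V.valuation f₀ = 1)
    (hch : ∀ x ∈ ch H f₀, x ∈ V) {a : ch H f₀} (ha : a ∈ bx L H M f₀ q) :
    V.valuation (a : K) ≤ V.valuation q := by
  unfold bx at ha
  induction ha using Submodule.iSup_induction' with
  | zero => rw [ZeroMemClass.coe_zero, map_zero]; exact zero_le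
  | add x y _ _ hx hy =>
    rw [Subalgebra.coe_add]
    exact (V.valuation.map_add _ _).trans (max_le hx hy)
  | mem i x hx =>
    unfold ix at hx
    induction hx using Submodule.span_induction with
    | zero => rw [ZeroMemClass.coe_zero, map_zero]; exact zero_le
    | add x y _ _ hx hy =>
      rw [Subalgebra.coe_add]
      exact (V.valuation.map_add _ _).trans (max_le hx hy)
    | smul c x _ hx =>
      rw [smul_eq_mul, Subalgebra.coe_mul, map_mul]
      exact (mul_le_of_le_one_left' ((V.valuation_le_one_iff _).2 (hch _ c.2))).trans hx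
    | mem x hx =>
      obtain ⟨f, hf, e⟩ := hx
      obtain ⟨-, b, hb, rfl⟩ := hf
      rw [e, map_div₀, map_pow, hf₀, one_pow, div_one]
      change V.valuation (q * b) ≤ _
      rw [map_mul]
      refine mul_le_of_le_one_right' ?_
      have := val_pow_le (c := 1) (fun x hx => (V.valuation_le_one_iff x).2 (hL x hx)) hk _ b hb
      rwa [one_pow] at this

/-- Elements of `t_x` vanish at the divisors of the boundary. -/
theorem tx_val {V : ValuationSubring K} {L W : Submodule k K} {N : ℕ} {τ f₀ : K}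
    (hT : Tp L N τ W V) (hf₀0 : f₀ ≠ 0) (hf₀ : ∀ x ∈ W * L, x / f₀ ∈ V)
    (hch : ∀ x ∈ ch (W * L) f₀, x ∈ V) {a : ch (W * L) f₀} (ha : a ∈ tx L W N τ f₀) :
    V.valuation (a : K) < 1 := by
  unfold tx at ha
  induction ha using Submodule.iSup_induction' with
  | zero => rw [ZeroMemClass.coe_zero, map_zero]; exact zero_lt_one
  | add x y _ _ hx hy =>
    rw [Subalgebra.coe_add]
    exact V.valuation.map_add_lt hx hy
  | mem i x hx =>
    unfold ix at hx
    induction hx using Submodule.span_induction with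
    | zero => rw [ZeroMemClass.coe_zero, map_zero]; exact zero_lt_one
    | add x y _ _ hx hy =>
      rw [Subalgebra.coe_add]
      exact V.valuation.map_add_lt hx hy
    | smul c x _ hx =>
      rw [smul_eq_mul, Subalgebra.coe_mul, map_mul]
      exact (mul_le_of_le_one_left' ((V.valuation_le_one_iff _).2 (hch _ c.2))).trans_lt hx
    | mem x hx =>
      obtain ⟨f, hf, e⟩ := hx
      rw [e, map_div₀, map_pow]
      have hv0 : 0 < V.valuation f₀ := zero_lt_iff.2 ((Valuation.ne_zero_iff _).2 hf₀0)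
      have hle : ∀ x ∈ (W * L) ^ i, V.valuation x ≤ V.valuation f₀ ^ i := by
        refine val_pow_le (fun x hx => ?_) hT.1 i
        have h1 := (V.valuation_le_one_iff _).2 (hf₀ x hx)
        rw [map_div₀] at h1
        exact (div_le_one₀ hv0).1 h1
      rcases hf.2 V hT with h0 | ⟨y, hy, hlt⟩
      · rw [h0, map_zero, zero_div]; exact zero_lt_one
      · exact (div_lt_one₀ (pow_pos hv0 _)).2 (hlt.trans_le (hle y hy))

/-- The ramification order at a good divisor. -/
theorem rram_good {V : ValuationSubring K} (hV : Disc V) {n : ℕ} {D : Fin n → Derivation k K K}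
    (hD : ∀ i, ∀ a ∈ V, D i a ∈ V) {τ' : K} (hτ' : V.valuation τ' = 1) {g : Fin (n + 1) → K}
    (hg : V.valuation (g 0) = 1) (hu : ∀ l : Fin n, g l.succ / g 0 ∈ V)
    (hq : τ' * Wd D g ≠ 0) :
    (rram k V.toSubring (ordV V) (fun l : Fin n => g l.succ / g 0) : ℤ) ≤
      ordV V (τ' * Wd D g) := by
  have hg0 : g 0 ≠ 0 := fun h => by rw [h, map_zero] at hg; exact zero_ne_one hg
  have hτ0 : τ' ≠ 0 := left_ne_zero_of_mul hq
  have hW0 : Wd D g ≠ 0 := right_ne_zero_of_mul hq
  have e1 : Wd D g = g 0 ^ (n + 1) * (jac D fun l : Fin n => g l.succ / g 0) := by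
    have h1 : g = Fin.cons (g 0) (fun l : Fin n => g l.succ) := by
      funext j
      refine Fin.cases ?_ (fun l => ?_) j <;> simp
    conv_lhs => rw [h1]
    rw [Wd_cons D _ hg0]
    congr 1
    unfold jac
    rw [← Matrix.det_transpose]
    rfl
  rw [e1] at hW0
  have hj0 : (jac D fun l : Fin n => g l.succ / g 0) ≠ 0 := right_ne_zero_of_mul hW0
  have h1 := rram_le (f := fun l : Fin n => g l.succ / g 0) (d := D) (isOrd_ordV hV)
    (fun j => hu j) (fun i a ha => hD i a ha) hj0
  refine h1.trans (le_of_eq ?_)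
  rw [e1, TGh4.ordV_mul V hτ0 hW0, TGh4.ordV_mul V (left_ne_zero_of_mul hW0) hj0,
    TGh4.ordV_pow, (TGh4.ordV_eq_zero_iff hV hτ0).2 hτ', (TGh4.ordV_eq_zero_iff hV hg0).2 hg]
  ring

end Pool.Agent.TGBC50
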