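import Pool.Agent.Lib.TGBC_h50.Good

/-!
# TANK G, bridge B -> C, divisors: the ramification order at a tame divisor

If `P(u) = ε t ^ e` with `e` prime to `p`, `∂P / ∂X_l₀ (u)` a unit, and the residue field of `V` is
separable over the field generated by the residues of `u`, then `rram k V u = e - 1`.
-/

set_option autoImplicit false

namespace Pool.Agent.TGBC50

open Matrix
open Pool.Agent.TGJ (IsOrd Pres jac rram HasD exists_min jac_mem)
open Pool.Agent.TGh4 (Disc IsUnif ordV)

section TameR

variable {k K : Type*} [Field k] [Field K] [Algebra k K] {V : ValuationSubring K} {n : ℕ}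

theorem aeval_mem_of (hk : ∀ c : k, algebraMap k K c ∈ V) {u : Fin n → K} (hu : ∀ l, u l ∈ V)
    (Q : MvPolynomial (Fin n) k) : MvPolynomial.aeval u Q ∈ V := by
  induction Q using MvPolynomial.induction_on with
  | C a => rw [MvPolynomial.algHom_C]; exact hk a
  | add P Q hP hQ => rw [map_add]; exact add_mem hP hQ
  | mul_X P i hP => rw [map_mul, MvPolynomial.aeval_X]; exact mul_mem hP (hu i)

theorem val_const (hk : ∀ c : k, algebraMap k K c ∈ V) {c : k} (hc : c ≠ 0) :
    V.valuation (algebraMap k K c) = 1 := by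
  have h1 : V.valuation (algebraMap k K c) ≤ 1 := (V.valuation_le_one_iff _).2 (hk c)
  have h2 : V.valuation (algebraMap k K c⁻¹) ≤ 1 := (V.valuation_le_one_iff _).2 (hk c⁻¹)
  refine le_antisymm h1 ?_
  by_contra h3
  push Not at h3
  have h4 : V.valuation (algebraMap k K c * algebraMap k K c⁻¹) < 1 := by
    rw [map_mul]
    exact (mul_le_of_le_one_right' h2).trans_lt h3
  rw [← map_mul, mul_inv_cancel₀ hc, map_one, map_one] at h4
  exact lt_irrefl _ h4

/-- The tame data of `V` over `k[u]`. -/
structure TameD (k : Type*) {K : Type*} [Field k] [Field K] [Algebra k K]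
    (V : ValuationSubring K) {n : ℕ} (u : Fin n → K) (t : K) (e : ℕ) : Prop where
  ov : ∀ c : k, algebraMap k K c ∈ V
  mem : ∀ l, u l ∈ V
  unif : IsUnif V t
  pos : 0 < e
  ne : (e : k) ≠ 0
  pol : ∃ (P : MvPolynomial (Fin n) k) (l₀ : Fin n) (ε : K), V.valuation ε = 1 ∧
    V.valuation (MvPolynomial.aeval u (MvPolynomial.pderiv l₀ P)) = 1 ∧
    MvPolynomial.aeval u P = ε * t ^ e
  sep : ∀ a ∈ V, ∃ G : Polynomial (MvPolynomial (Fin n) k),
      Vp V (G.eval₂ (MvPolynomial.aeval u : MvPolynomial (Fin n) k →ₐ[k] K).toRingHom a) ∧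
      V.valuation ((Polynomial.derivative G).eval₂
        (MvPolynomial.aeval u : MvPolynomial (Fin n) k →ₐ[k] K).toRingHom a) = 1

/-- The quotient of an element of positive value by a uniformizer. -/
theorem div_unif_mem {t : K} (ht : IsUnif V t) {a : K} (ha : Vp V a) : a / t ∈ V := by
  rcases eq_or_ne a 0 with rfl | ha0
  · rw [zero_div]; exact V.zero_mem
  · obtain ⟨m, hm⟩ := ht.gen a ha0
    unfold Vp at ha
    rw [hm] at ha
    have h1 : 0 < m := ht.zpow_lt_one.1 ha
    rw [← V.valuation_le_one_iff, map_div₀, hm, div_le_one₀ ht.pos]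
    have h2 : V.valuation t ^ m ≤ V.valuation t ^ (1 : ℤ) := ht.zpow_le.2 (by omega)
    rwa [zpow_one] at h2

/-- A derivation which kills `t` and the `u l`, `l ≠ l₀`, modulo the maximal ideal, kills the whole
residue field. -/
theorem tame_kills (hk : ∀ c : k, algebraMap k K c ∈ V) {t : K} (ht : IsUnif V t)
    (u : Fin n → K) (hu : ∀ l, u l ∈ V) (P : MvPolynomial (Fin n) k) (l₀ : Fin n)
    (hP : V.valuation (MvPolynomial.aeval u (MvPolynomial.pderiv l₀ P)) = 1)
    {e : ℕ} (he : 0 < e) {ε : K} (hε : V.valuation ε = 1)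
    (hPe : MvPolynomial.aeval u P = ε * t ^ e)
    (hsep : ∀ a ∈ V, ∃ G : Polynomial (MvPolynomial (Fin n) k),
      Vp V (G.eval₂ (MvPolynomial.aeval u : MvPolynomial (Fin n) k →ₐ[k] K).toRingHom a) ∧
      V.valuation ((Polynomial.derivative G).eval₂
        (MvPolynomial.aeval u : MvPolynomial (Fin n) k →ₐ[k] K).toRingHom a) = 1)
    (D' : Derivation k K K) (hD'V : ∀ a ∈ V, D' a ∈ V) (h1 : Vp V (D' t))
    (h2 : ∀ l, l ≠ l₀ → Vp V (D' (u l))) : ∀ a ∈ V, Vp V (D' a) := by
  classical
  have htV : t ∈ V := Vp.mem ht.lt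
  have hεV : ε ∈ V := (V.valuation_le_one_iff _).1 hε.le
  have hauV : ∀ Q : MvPolynomial (Fin n) k, MvPolynomial.aeval u Q ∈ V := aeval_mem_of hk hu
  -- `D'` preserves the maximal ideal
  have h3 : ∀ a, Vp V a → Vp V (D' a) := by
    intro a ha
    have h4 : a = (a / t) * t := (div_mul_cancel₀ a ht.ne).symm
    rw [h4, Derivation.leibniz, smul_eq_mul, smul_eq_mul]
    exact (Vp.mul' (div_unif_mem ht ha) h1).add (Vp.mul ht.lt (hD'V _ (div_unif_mem ht ha)))
  have h4 : Vp V (D' (u l₀)) := by
    have h5 : Vp V (D' (MvPolynomial.aeval u P)) := by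
      apply h3
      rw [hPe]
      refine Vp.mul' hεV ?_
      rw [← Nat.sub_add_cancel he, pow_succ]
      exact Vp.mul' (pow_mem htV _) ht.lt
    rw [der_aeval, ← Finset.add_sum_erase _ _ (Finset.mem_univ l₀)] at h5
    have h6 : Vp V (∑ l ∈ Finset.univ.erase l₀,
        MvPolynomial.aeval u (MvPolynomial.pderiv l P) * D' (u l)) :=
      Vp.sum _ _ fun l hl => Vp.mul' (hauV _) (h2 l (Finset.ne_of_mem_erase hl))
    have h7 := h5.add h6.neg
    rw [add_neg_cancel_right] at h7
    exact Vp.of_mul hP h7
  have h5 : ∀ l, Vp V (D' (u l)) := by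
    intro l
    by_cases h : l = l₀
    · rw [h]; exact h4
    · exact h2 l h
  have h6 : ∀ Q : MvPolynomial (Fin n) k, Vp V (D' (MvPolynomial.aeval u Q)) := by
    intro Q
    rw [der_aeval]
    exact Vp.sum _ _ fun l _ => Vp.mul' (hauV _) (h5 l)
  intro a ha
  obtain ⟨G, hG, hG'⟩ := hsep a ha
  have h7 := h3 _ hG
  rw [der_eval₂] at h7
  have h8 : Vp V (G.sum fun i c => D' (MvPolynomial.aeval u c) * a ^ i) := by
    rw [Polynomial.sum_def]
    exact Vp.sum _ _ fun i _ => (h6 _).mul (pow_mem ha _)
  have h9 := h7.add h8.neg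
  rw [add_comm, neg_add_cancel_left] at h9
  exact Vp.of_mul hG' h9

/-- The determinant, once the derivations form a basis at the residue field. -/
theorem tame_jac (hk : ∀ c : k, algebraMap k K c ∈ V) {t : K} (htV : Vp V t)
    (D : Fin n → Derivation k K K)
    (hD : ∀ i, ∀ a ∈ V, D i a ∈ V) (u : Fin n → K) (hu : ∀ l, u l ∈ V)
    (P : MvPolynomial (Fin n) k) (l₀ : Fin n)
    (hP : V.valuation (MvPolynomial.aeval u (MvPolynomial.pderiv l₀ P)) = 1)
    {e : ℕ} (he : 0 < e) (hek : (e : k) ≠ 0) {ε : K} (hε : V.valuation ε = 1)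
    (hPe : MvPolynomial.aeval u P = ε * t ^ e)
    (hunit : V.valuation (Matrix.of fun l i => D i (if l = l₀ then t else u l)).det = 1) :
    V.valuation (Matrix.of fun l i => D i (u l)).det = V.valuation t ^ (e - 1) := by
  classical
  have hεV : ε ∈ V := (V.valuation_le_one_iff _).1 hε.le
  let M : Matrix (Fin n) (Fin n) K := Matrix.of fun l i => D i (u l)
  have e1 : (M.updateRow l₀ fun i => D i (MvPolynomial.aeval u P)).det =
      MvPolynomial.aeval u (MvPolynomial.pderiv l₀ P) * M.det := by
    have h1 : (fun i => D i (MvPolynomial.aeval u P)) =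
        ∑ l, MvPolynomial.aeval u (MvPolynomial.pderiv l P) • M l := by
      funext i
      rw [der_aeval, Finset.sum_apply]
      rfl
    rw [h1, Matrix.det_updateRow_sum, smul_eq_mul]
  have e2 : (fun i => D i (MvPolynomial.aeval u P)) =
      t ^ (e - 1) • (((e : K) * ε) • (fun i => D i t) + t • fun i => D i ε) := by
    funext i
    rw [hPe, Derivation.leibniz, Derivation.leibniz_pow]
    simp only [smul_eq_mul, nsmul_eq_mul, Pi.smul_apply, Pi.add_apply]
    have h1 : t ^ e = t ^ (e - 1) * t := by
      rw [← pow_succ, Nat.sub_add_cancel he]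
    rw [h1]
    ring
  have e3 : (M.updateRow l₀ fun i => D i (MvPolynomial.aeval u P)).det = t ^ (e - 1) *
      ((e : K) * ε * (M.updateRow l₀ fun i => D i t).det +
        t * (M.updateRow l₀ fun i => D i ε).det) := by
    rw [e2, Matrix.det_updateRow_smul, Matrix.det_updateRow_add, Matrix.det_updateRow_smul,
      Matrix.det_updateRow_smul]
  have e4 : (M.updateRow l₀ fun i => D i t) =
      Matrix.of fun l i => D i (if l = l₀ then t else u l) := by
    ext l i
    by_cases h : l = l₀
    · subst h
      simp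
    · rw [Matrix.updateRow_ne h]
      simp [h, M]
  have h1 : V.valuation ((e : K) * ε * (M.updateRow l₀ fun i => D i t).det) = 1 := by
    rw [map_mul, map_mul, e4, hunit, hε, mul_one, mul_one]
    have h2 := val_const hk hek
    rwa [map_natCast] at h2
  have h2 : Vp V (t * (M.updateRow l₀ fun i => D i ε).det) := by
    refine htV.mul (det_mem _ fun l i => ?_)
    by_cases h : l = l₀
    · subst h
      rw [Matrix.updateRow_self]
      exact hD i _ hεV
    · rw [Matrix.updateRow_ne h]
      exact hD i _ (hu l)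
  have h3 := congrArg V.valuation (e1.symm.trans e3)
  rw [map_mul, hP, one_mul, map_mul, val_add_vp h1 h2, mul_one, map_pow] at h3
  exact h3

/-- `jac` is the determinant of the transposed matrix. -/
theorem jac_eq_det (D : Fin n → Derivation k K K) (x : Fin n → K) :
    jac D x = (Matrix.of fun l i => D i (x l)).det := by
  unfold jac
  rw [← Matrix.det_transpose]
  rfl

/-- Replacing one derivation by a linear combination multiplies the determinant. -/
theorem jac_replace (D : Fin n → Derivation k K K) (x : Fin n → K) (c : Fin n → K) (i₀ : Fin n)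
    (s : K) (E : Derivation k K K) (hE : ∀ a, E a = s * ∑ i, c i * D i a) :
    jac (Function.update D i₀ E) x = s * c i₀ * jac D x := by
  classical
  unfold jac
  have h1 : (Matrix.of fun i j => (Function.update D i₀ E) i (x j)) =
      (Matrix.of fun i j => D i (x j)).updateRow i₀
        (s • ∑ i, c i • (Matrix.of fun i j => D i (x j)) i) := by
    ext i j
    by_cases hi : i = i₀
    · subst hi
      rw [Matrix.updateRow_self, Matrix.of_apply, Function.update_self, hE, Pi.smul_apply,
        Finset.sum_apply, smul_eq_mul]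
      rfl
    · rw [Matrix.updateRow_ne hi, Matrix.of_apply, Matrix.of_apply, Function.update_of_ne hi]
  rw [h1, Matrix.det_updateRow_smul, Matrix.det_updateRow_sum]
  simp only [smul_eq_mul]
  ring

/-- **The tame formula** for the ramification order. -/
theorem tame_rram {u : Fin n → K} {t : K} {e : ℕ} (hT : TameD k V u t e)
    (hD : HasD k V.toSubring u) : (rram k V.toSubring (ordV V) u : ℤ) = e - 1 := by
  classical
  obtain ⟨hk, hu, ht, he, hek, ⟨P, l₀, ε, hε, hP, hPe⟩, hsep⟩ := hT
  have hV : Disc V := ⟨t, ht⟩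
  have hO := isOrd_ordV hV
  obtain ⟨d, hd, hd0, hdm⟩ := exists_min hO hu hD
  have htV : t ∈ V := Vp.mem ht.lt
  -- the matrix with `t` in the row `l₀`
  let x : Fin n → K := fun l => if l = l₀ then t else u l
  have hx : ∀ l, x l ∈ V := by
    intro l
    by_cases h : l = l₀
    · simp only [x, if_pos h]; exact htV
    · simp only [x, if_neg h]; exact hu l
  have hunit : V.valuation (Matrix.of fun l i => d i (x l)).det = 1 := by
    by_contra hne
    let φ := IsLocalRing.residue V
    let Mx : Matrix (Fin n) (Fin n) V := Matrix.of fun j i => ⟨d i (x j), hd i _ (hx j)⟩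
    have hcx : ((Mx.det : V) : K) = (Matrix.of fun j i => d i (x j)).det := by
      have h1 := (V.subtype).map_det Mx
      rw [show ((Mx.det : V) : K) = V.subtype Mx.det from rfl, h1]
      rfl
    have hφ : ∀ a : V, φ a = 0 ↔ Vp V (a : K) := by
      intro a
      rw [IsLocalRing.residue_eq_zero_iff]
      exact V.valuation_lt_one_iff a
    rw [← hcx] at hne
    have hle : V.valuation ((Mx.det : V) : K) ≤ 1 := (V.valuation_le_one_iff _).2 (Mx.det).2
    have hlt : Vp V ((Mx.det : V) : K) := lt_of_le_of_ne hle hne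
    have h0 : (φ.mapMatrix Mx).det = 0 := by
      rw [← RingHom.map_det]
      exact (hφ _).2 hlt
    obtain ⟨c, hc0, hc⟩ := Matrix.exists_mulVec_eq_zero_iff.2 h0
    choose γ hγ using fun i => Ideal.Quotient.mk_surjective (c i)
    have hγ' : ∀ i, φ (γ i) = c i := hγ
    obtain ⟨i₀, hi₀⟩ := Function.ne_iff.1 hc0
    have hγ0 : V.valuation (γ i₀ : K) = 1 := by
      refine le_antisymm ((V.valuation_le_one_iff _).2 (γ i₀).2) (not_lt.1 fun h => hi₀ ?_)
      rw [← hγ']
      exact (hφ _).2 h
    let D' : Derivation k K K := ∑ i, (γ i : K) • d i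
    have hD' : ∀ a, D' a = ∑ i, (γ i : K) * d i a := by
      intro a
      have h1 := congrFun (map_sum (Derivation.coeFnAddMonoidHom (R := k) (A := K) (M := K))
        (fun i => (γ i : K) • d i) Finset.univ) a
      rw [Finset.sum_apply] at h1
      exact h1
    have hD'V : ∀ a ∈ V, D' a ∈ V := fun a ha => by
      rw [hD']
      exact sum_mem fun i _ => mul_mem (γ i).2 (hd i a ha)
    have hx0 : ∀ j, Vp V (D' (x j)) := by
      intro j
      have h1 : φ (∑ i, γ i * Mx j i) = 0 := by
        rw [map_sum]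
        have h2 : ∑ i, φ (γ i * Mx j i) = (φ.mapMatrix Mx *ᵥ c) j := by
          refine Finset.sum_congr rfl fun i _ => ?_
          rw [map_mul, hγ', mul_comm]
          rfl
        rw [h2, hc]
        rfl
      rw [hφ, AddSubmonoidClass.coe_finsetSum] at h1
      rw [hD']
      exact h1
    have h1 : Vp V (D' t) := by
      have h2 := hx0 l₀
      simp only [x, if_pos rfl] at h2
      exact h2
    have h2 : ∀ l, l ≠ l₀ → Vp V (D' (u l)) := by
      intro l hl
      have h3 := hx0 l
      simp only [x, if_neg hl] at h3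
      exact h3
    have hkill := tame_kills hk ht u hu P l₀ hP he hε hPe hsep D' hD'V h1 h2
    -- the better tuple
    let E : Derivation k K K := t⁻¹ • D'
    have hE : ∀ a, E a = t⁻¹ * ∑ i, (γ i : K) * d i a := by
      intro a
      rw [← hD']
      rfl
    have hEV : ∀ a ∈ V, E a ∈ V := by
      intro a ha
      have h3 := div_unif_mem ht (hkill a ha)
      have h4 : E a = D' a / t := by
        rw [div_eq_inv_mul]
        rfl
      rw [h4]
      exact h3
    have hjac := jac_replace d u (fun i => (γ i : K)) i₀ t⁻¹ E hE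
    have hγne : (γ i₀ : K) ≠ 0 := fun h => by
      rw [h, map_zero] at hγ0
      exact zero_ne_one hγ0
    have hj0 : jac (Function.update d i₀ E) u ≠ 0 := by
      rw [hjac]
      exact mul_ne_zero (mul_ne_zero (inv_ne_zero ht.ne) hγne) hd0
    have hmin := TGJ.rram_le hO hu (d := Function.update d i₀ E) (fun i => by
      by_cases hi : i = i₀
      · subst hi
        rw [Function.update_self]
        exact hEV
      · rw [Function.update_of_ne hi]
        exact hd i) hj0
    rw [hjac, TGh4.ordV_mul V (mul_ne_zero (inv_ne_zero ht.ne) hγne) hd0,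
      TGh4.ordV_mul V (inv_ne_zero ht.ne) hγne, TGh4.ordV_inv, TGh4.ordV_unif ht,
      (TGh4.ordV_eq_zero_iff hV hγne).2 hγ0, hdm] at hmin
    linarith
  have h1 := tame_jac hk ht.lt d hd u hu P l₀ hP he hek hε hPe hunit
  rw [← hdm]
  rw [← jac_eq_det] at h1
  refine TGh4.ordV_eq ht ?_
  rw [h1, ← zpow_natCast, Nat.cast_sub he, Nat.cast_one]

end TameR

end Pool.Agent.TGBC50
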